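import Mathlib

set_option autoImplicit false

namespace Pool.Agent.Helper34_EG

/-- Sums of at most `h` elements of `A`, repetition allowed. -/
def Fs (h : ℕ) (A : Set ℕ) : Set ℕ :=
  {n | ∃ s : Multiset ℕ, (∀ x ∈ s, x ∈ A) ∧ Multiset.card s ≤ h ∧ s.sum = n}

/-- Sums of at most `h` distinct elements of `A`. -/
def Ds (h : ℕ) (A : Set ℕ) : Set ℕ :=
  {n | ∃ s : Finset ℕ, (∀ x ∈ s, x ∈ A) ∧ s.card ≤ h ∧ ∑ x ∈ s, x = n}

lemma Fs_mono {h k : ℕ} {A B : Set ℕ} (hk : h ≤ k) (hAB : A ⊆ B) : Fs h A ⊆ Fs k B := by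
  rintro n ⟨s, hs, hc, rfl⟩
  exact ⟨s, fun x hx => hAB (hs x hx), hc.trans hk, rfl⟩

lemma Ds_mono {h k : ℕ} {A B : Set ℕ} (hk : h ≤ k) (hAB : A ⊆ B) : Ds h A ⊆ Ds k B := by
  rintro n ⟨s, hs, hc, rfl⟩
  exact ⟨s, fun x hx => hAB (hs x hx), hc.trans hk, rfl⟩

lemma Fs_add {h k x y : ℕ} {A : Set ℕ} (hx : x ∈ Fs h A) (hy : y ∈ Fs k A) :
    x + y ∈ Fs (h + k) A := by
  obtain ⟨s, hs, hc, rfl⟩ := hx
  obtain ⟨t, ht, hd, rfl⟩ := hy
  refine ⟨s + t, ?_, ?_, ?_⟩
  · intro x hx
    rcases Multiset.mem_add.1 hx with h | h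
    · exact hs x h
    · exact ht x h
  · rw [Multiset.card_add]; omega
  · rw [Multiset.sum_add]

lemma zero_mem_Fs (h : ℕ) (A : Set ℕ) : 0 ∈ Fs h A := ⟨0, by simp, by simp, by simp⟩

lemma zero_mem_Ds (h : ℕ) (A : Set ℕ) : 0 ∈ Ds h A := ⟨∅, by simp, by simp, by simp⟩

lemma Ds_add {h k x y : ℕ} {A B : Set ℕ} (hAB : Disjoint A B) (hx : x ∈ Ds h A)
    (hy : y ∈ Ds k B) : x + y ∈ Ds (h + k) (A ∪ B) := by
  obtain ⟨s, hs, hc, rfl⟩ := hx
  obtain ⟨t, ht, hd, rfl⟩ := hy
  have hdisj : Disjoint s t := by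
    rw [Finset.disjoint_left]
    intro a ha hb
    exact (Set.disjoint_left.1 hAB) (hs a ha) (ht a hb)
  refine ⟨s ∪ t, ?_, ?_, ?_⟩
  · intro x hx
    rcases Finset.mem_union.1 hx with h | h
    · exact Or.inl (hs x h)
    · exact Or.inr (ht x h)
  · exact (Finset.card_union_le s t).trans (by omega)
  · rw [Finset.sum_union hdisj]

lemma Ds_add' {h k x y : ℕ} {A B C : Set ℕ} (hAB : Disjoint A B) (hA : A ⊆ C) (hB : B ⊆ C)
    (hx : x ∈ Ds h A) (hy : y ∈ Ds k B) : x + y ∈ Ds (h + k) C :=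
  Ds_mono le_rfl (Set.union_subset hA hB) (Ds_add hAB hx hy)

/-- An element of `Ds h A` only uses elements bounded by itself. -/
lemma Ds_restrict {h x : ℕ} {A : Set ℕ} (hx : x ∈ Ds h A) : x ∈ Ds h {a ∈ A | a ≤ x} := by
  obtain ⟨s, hs, hc, rfl⟩ := hx
  refine ⟨s, fun a ha => ⟨hs a ha, ?_⟩, hc, rfl⟩
  exact Finset.single_le_sum (f := fun x => x) (fun _ _ => Nat.zero_le _) ha

lemma Fs_restrict {h x : ℕ} {A : Set ℕ} (hx : x ∈ Fs h A) : x ∈ Fs h {a ∈ A | a ≤ x} := by
  obtain ⟨s, hs, hc, rfl⟩ := hx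
  exact ⟨s, fun a ha => ⟨hs a ha, Multiset.le_sum_of_mem ha⟩, hc, rfl⟩

/-- Sum of elements from pairwise disjoint pieces. -/
lemma Ds_sum (K h : ℕ) (A : ℕ → Set ℕ) (b : ℕ → ℕ)
    (hdisj : ∀ i < K, ∀ j < K, i ≠ j → Disjoint (A i) (A j))
    (hb : ∀ i < K, b i ∈ Ds h (A i)) :
    ∑ i ∈ Finset.range K, b i ∈ Ds (K * h) (⋃ i ∈ Finset.range K, A i) := by
  induction K with
  | zero => simpa using zero_mem_Ds _ _
  | succ K ih =>
    rw [Finset.sum_range_succ]
    have ih' := ih (fun i hi j hj => hdisj i (by omega) j (by omega)) (fun i hi => hb i (by omega))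
    have hd : Disjoint (⋃ i ∈ Finset.range K, A i) (A K) := by
      rw [Set.disjoint_iUnion₂_left]
      intro i hi
      have hi' := Finset.mem_range.1 hi
      exact hdisj i (by omega) K (by omega) (by omega)
    have := Ds_add' (C := ⋃ i ∈ Finset.range (K + 1), A i) hd ?_ ?_ ih' (hb K (by omega))
    · refine Ds_mono (le_of_eq ?_) (le_refl _) this
      ring
    · intro x hx
      simp only [Set.mem_iUnion, Finset.mem_range] at hx ⊢
      obtain ⟨i, hi, hx⟩ := hx
      exact ⟨i, by omega, hx⟩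
    · intro x hx
      simp only [Set.mem_iUnion, Finset.mem_range]
      exact ⟨K, by omega, hx⟩

lemma Fs_sum (K h : ℕ) (A : Set ℕ) (b : ℕ → ℕ) (hb : ∀ i < K, b i ∈ Fs h A) :
    ∑ i ∈ Finset.range K, b i ∈ Fs (K * h) A := by
  induction K with
  | zero => simpa using zero_mem_Fs _ _
  | succ K ih =>
    rw [Finset.sum_range_succ]
    have := Fs_add (ih (fun i hi => hb i (by omega))) (hb K (by omega))
    refine Fs_mono (le_of_eq ?_) (le_refl _) this
    ring

lemma exists_min {α : Type*} (P : α → Prop) (Φ : α → ℕ) (h : ∃ a, P a) :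
    ∃ a, P a ∧ ∀ b, P b → Φ a ≤ Φ b := by
  obtain ⟨a, ha, hmin⟩ := WellFounded.has_min (measure Φ).wf {a | P a} h
  exact ⟨a, ha, fun b hb => not_lt.1 (hmin b hb)⟩

/-- Lexicographically minimal representations show that the sums of at most `h` distinct elements
are at least a positive proportion of the sums of at most `h` elements. -/
theorem lemmaA (h : ℕ) (B : Set ℕ) (X : Finset ℕ) (hX : ∀ x ∈ X, x ∈ Fs h B) :
    ∃ Y : Finset ℕ, (∀ y ∈ Y, y ∈ Ds h B) ∧ (∀ y ∈ Y, ∃ x ∈ X, y ≤ x) ∧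
      X.card ≤ (h + 1) ^ h * Y.card := by
  classical
  set N := X.sup id with hN
  set C := 2 ^ (N + 1) with hC
  let W : ℕ → ℕ := fun a => C + 2 ^ a
  let Φ : Multiset ℕ → ℕ := fun s => (s.map W).sum
  have hΦadd : ∀ s t, Φ (s + t) = Φ s + Φ t := by
    intro s t; simp [Φ, Multiset.map_add, Multiset.sum_add]
  have key : ∀ x : ℕ, ∃ s : Multiset ℕ, x ∈ X →
      ((∀ a ∈ s, a ∈ B) ∧ Multiset.card s ≤ h ∧ s.sum = x) ∧
      ∀ t : Multiset ℕ, ((∀ a ∈ t, a ∈ B) ∧ Multiset.card t ≤ h ∧ t.sum = x) → Φ s ≤ Φ t := by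
    intro x
    by_cases hx : x ∈ X
    · obtain ⟨s, hs, hmin⟩ := exists_min
        (fun s : Multiset ℕ => (∀ a ∈ s, a ∈ B) ∧ Multiset.card s ≤ h ∧ s.sum = x) Φ (hX x hx)
      exact ⟨s, fun _ => ⟨hs, hmin⟩⟩
    · exact ⟨0, fun h' => absurd h' hx⟩
  choose M hM using key
  let y : ℕ → ℕ := fun x => ∑ a ∈ (M x).toFinset, a
  have hle : ∀ x ∈ X, (M x).toFinset.val ≤ M x := by
    intro x _
    rw [Multiset.toFinset_val]
    exact Multiset.dedup_le _
  have hsplit : ∀ x ∈ X, M x = (M x).toFinset.val + (M x - (M x).toFinset.val) := by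
    intro x hx
    exact (add_tsub_cancel_of_le (hle x hx)).symm
  have hbd : ∀ x ∈ X, ∀ a ∈ (M x).toFinset, a < N + 1 := by
    intro x hx a ha
    have h1 : a ≤ x := by
      rw [← (hM x hx).1.2.2]
      exact Multiset.le_sum_of_mem (Multiset.mem_toFinset.1 ha)
    have h2 : x ≤ N := Finset.le_sup (f := id) hx
    omega
  have hΦval : ∀ S : Finset ℕ, Φ S.val = S.card * C + ∑ a ∈ S, 2 ^ a := by
    intro S
    have : Φ S.val = ∑ a ∈ S, W a := rfl
    rw [this]
    simp [W, Finset.sum_add_distrib]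
  have hlt : ∀ x ∈ X, ∑ a ∈ (M x).toFinset, 2 ^ a < C := by
    intro x hx
    exact Nat.geomSum_lt (le_refl 2) (hbd x hx)
  have hcardle : ∀ x ∈ X, (M x).toFinset.card ≤ h := by
    intro x hx
    exact (Multiset.toFinset_card_le _).trans (hM x hx).1.2.1
  -- main claim, one direction
  have claim1 : ∀ x ∈ X, ∀ x' ∈ X, y x = y x' →
      ¬ (Φ (M x').toFinset.val < Φ (M x).toFinset.val) := by
    intro x hx x' hx' hy hlt'
    have hcard : (M x').toFinset.card ≤ (M x).toFinset.card := by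
      by_contra hcon
      push_neg at hcon
      rw [hΦval, hΦval] at hlt'
      have h1 := hlt x hx
      have h2 : ((M x).toFinset.card + 1) * C ≤ (M x').toFinset.card * C :=
        Nat.mul_le_mul_right _ hcon
      have h3 : ((M x).toFinset.card + 1) * C = (M x).toFinset.card * C + C := by ring
      omega
    have hsp := hsplit x hx
    set L := M x - (M x).toFinset.val with hL
    have hmin := (hM x hx).2 ((M x').toFinset.val + L) ?_
    · have e1 : Φ (M x) = Φ (M x).toFinset.val + Φ L := by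
        conv_lhs => rw [hsp]
        rw [hΦadd]
      rw [e1, hΦadd] at hmin
      omega
    · refine ⟨?_, ?_, ?_⟩
      · intro a ha
        rcases Multiset.mem_add.1 ha with h' | h'
        · exact (hM x' hx').1.1 a (Multiset.mem_toFinset.1 h')
        · have : a ∈ M x := by rw [hsp]; exact Multiset.mem_add.2 (Or.inr h')
          exact (hM x hx).1.1 a this
      · have h1 := (hM x hx).1.2.1
        have h2 : Multiset.card (M x) = (M x).toFinset.card + Multiset.card L := by
          conv_lhs => rw [hsp]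
          rw [Multiset.card_add]; rfl
        rw [Multiset.card_add]
        have h3 : Multiset.card (M x').toFinset.val = (M x').toFinset.card := rfl
        omega
      · have h1 := (hM x hx).1.2.2
        have h2 : (M x).sum = ∑ a ∈ (M x).toFinset, a + L.sum := by
          conv_lhs => rw [hsp]
          rw [Multiset.sum_add, Finset.sum_val]
          rfl
        rw [Multiset.sum_add, Finset.sum_val]
        have h3 : ∑ a ∈ (M x).toFinset, a = ∑ a ∈ (M x').toFinset, a := hy
        have h4 : ((M x').toFinset.sum id) = ∑ a ∈ (M x').toFinset, a := rfl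
        omega
  have claim : ∀ x ∈ X, ∀ x' ∈ X, y x = y x' → (M x).toFinset = (M x').toFinset := by
    intro x hx x' hx' hy
    have h1 := claim1 x hx x' hx' hy
    have h2 := claim1 x' hx' x hx hy.symm
    have h3 : Φ (M x).toFinset.val = Φ (M x').toFinset.val := by omega
    rw [hΦval, hΦval] at h3
    have l1 := hlt x hx
    have l2 := hlt x' hx'
    have hc : (M x).toFinset.card = (M x').toFinset.card := by
      rcases lt_trichotomy (M x).toFinset.card (M x').toFinset.card with hh | hh | hh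
      · have h2 : ((M x).toFinset.card + 1) * C ≤ (M x').toFinset.card * C :=
          Nat.mul_le_mul_right _ hh
        have h4 : ((M x).toFinset.card + 1) * C = (M x).toFinset.card * C + C := by ring
        omega
      · exact hh
      · have h2 : ((M x').toFinset.card + 1) * C ≤ (M x).toFinset.card * C :=
          Nat.mul_le_mul_right _ hh
        have h4 : ((M x').toFinset.card + 1) * C = (M x').toFinset.card * C + C := by ring
        omega
    rw [hc] at h3
    have h5 : ∑ a ∈ (M x).toFinset, 2 ^ a = ∑ a ∈ (M x').toFinset, 2 ^ a := by omega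
    exact Finset.geomSum_injective (le_refl 2) h5
  refine ⟨X.image y, ?_, ?_, ?_⟩
  · intro b hb
    obtain ⟨x, hx, rfl⟩ := Finset.mem_image.1 hb
    exact ⟨(M x).toFinset, fun a ha => (hM x hx).1.1 a (Multiset.mem_toFinset.1 ha),
      hcardle x hx, rfl⟩
  · intro b hb
    obtain ⟨x, hx, rfl⟩ := Finset.mem_image.1 hb
    refine ⟨x, hx, ?_⟩
    have h1 := (hM x hx).1.2.2
    have hsp := hsplit x hx
    have h2 : (M x).sum = ∑ a ∈ (M x).toFinset, a + (M x - (M x).toFinset.val).sum := by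
      conv_lhs => rw [hsp]
      rw [Multiset.sum_add, Finset.sum_val]
      rfl
    show ∑ a ∈ (M x).toFinset, a ≤ x
    omega
  · apply Finset.card_le_mul_card_image
    intro b hb
    obtain ⟨x0, hx0, rfl⟩ := Finset.mem_image.1 hb
    set N0 := (M x0).toFinset with hN0
    have hc : (Fintype.piFinset (fun _ : N0 => Finset.range (h + 1))).card ≤ (h + 1) ^ h := by
      rw [Fintype.card_piFinset]
      simp only [Finset.card_range, Finset.prod_const, Finset.card_univ, Fintype.card_coe]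
      exact Nat.pow_le_pow_right (by omega) (hcardle x0 hx0)
    refine le_trans ?_ hc
    apply Finset.card_le_card_of_injOn (fun x => fun a : N0 => Multiset.count (a : ℕ) (M x))
    · intro x hx
      simp only [Finset.coe_filter, Set.mem_setOf_eq] at hx
      simp only [Finset.mem_coe, Fintype.mem_piFinset, Finset.mem_range]
      intro a
      have h1 := Multiset.count_le_card (a : ℕ) (M x)
      have h2 := (hM x hx.1).1.2.1
      omega
    · intro x hx x' hx' hxx
      simp only [Finset.coe_filter, Set.mem_setOf_eq] at hx hx'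
      have e1 : (M x).toFinset = N0 := claim x hx.1 x0 hx0 hx.2
      have e2 : (M x').toFinset = N0 := claim x' hx'.1 x0 hx0 hx'.2
      have : M x = M x' := by
        ext a
        by_cases ha : a ∈ N0
        · exact congrFun hxx ⟨a, ha⟩
        · rw [Multiset.count_eq_zero_of_notMem, Multiset.count_eq_zero_of_notMem]
          · rw [← Multiset.mem_toFinset, e2]; exact ha
          · rw [← Multiset.mem_toFinset, e1]; exact ha
      rw [← (hM x hx.1).1.2.2, ← (hM x' hx'.1).1.2.2, this]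

end Pool.Agent.Helper34_EG
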