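import Mathlib

set_option autoImplicit false

namespace Pool.Agent.Helper34_EG

lemma color_count {α : Type*} [Fintype α] [DecidableEq α] (k h : ℕ) (hk : 1 ≤ k) (i : Fin k)
    (m : ℕ) (R : ℕ → Finset α) (hR : ∀ j < m, (R j).card ≤ h)
    (hdisj : ∀ j < m, ∀ l < m, j ≠ l → Disjoint (R j) (R l)) :
    ((Finset.univ.filter (fun c : α → Fin k => ∀ j < m, ∃ a ∈ R j, c a ≠ i)).card : ℝ) ≤
      (1 - 1 / (k : ℝ) ^ h) ^ m * (k : ℝ) ^ (Fintype.card α) := by
  classical
  have hk0 : (1 : ℝ) ≤ k := by exact_mod_cast hk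
  have hkh : (1 : ℝ) ≤ (k : ℝ) ^ h := one_le_pow₀ hk0
  induction m with
  | zero =>
    simp only [Nat.not_lt_zero, false_imp_iff, implies_true, Finset.filter_true, pow_zero, one_mul]
    rw [Finset.card_univ, Fintype.card_fun, Fintype.card_fin]
    push_cast
    exact le_rfl
  | succ m ih =>
    have ih' := ih (fun j hj => hR j (by omega))
      (fun j hj l hl => hdisj j (by omega) l (by omega))
    set B := Finset.univ.filter (fun c : α → Fin k => ∀ j < m, ∃ a ∈ R j, c a ≠ i) with hB
    set G := B.filter (fun c => ∀ a ∈ R m, c a = i) with hG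
    have hB' : Finset.univ.filter (fun c : α → Fin k => ∀ j < m + 1, ∃ a ∈ R j, c a ≠ i) =
        B.filter (fun c => ¬ ∀ a ∈ R m, c a = i) := by
      ext c
      simp only [hB, Finset.mem_filter, Finset.mem_univ, true_and]
      constructor
      · intro h
        refine ⟨fun j hj => h j (by omega), ?_⟩
        obtain ⟨a, ha, hc⟩ := h m (by omega)
        intro hcon
        exact hc (hcon a ha)
      · rintro ⟨h1, h2⟩ j hj
        rcases Nat.lt_succ_iff_lt_or_eq.1 hj with h | h
        · exact h1 j h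
        · subst h
          push Not at h2
          exact h2
    have hsplit : (B.filter (fun c => ∀ a ∈ R m, c a = i)).card +
        (B.filter (fun c => ¬ ∀ a ∈ R m, c a = i)).card = B.card :=
      Finset.card_filter_add_card_filter_not _
    have hinj : B.card ≤ (G ×ˢ (Finset.univ : Finset (R m → Fin k))).card := by
      apply Finset.card_le_card_of_injOn
        (fun c => ((fun a => if a ∈ R m then i else c a), (fun a : R m => c a)))
      · intro c hc
        have hc' := (Finset.mem_filter.1 (Finset.mem_coe.1 hc)).2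
        rw [Finset.mem_coe, Finset.mem_product]
        refine ⟨?_, Finset.mem_univ _⟩
        rw [hG, Finset.mem_filter, hB, Finset.mem_filter]
        refine ⟨⟨Finset.mem_univ _, ?_⟩, ?_⟩
        · intro j hj
          obtain ⟨a, ha, hca⟩ := hc' j hj
          refine ⟨a, ha, ?_⟩
          have hnot : a ∉ R m := by
            intro ham
            exact (Finset.disjoint_left.1 (hdisj j (by omega) m (by omega) (by omega))) ha ham
          simp only [hnot, if_false]
          exact hca
        · intro a ha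
          simp [ha]
      · intro c _ c' _ hcc
        rw [Prod.mk.injEq] at hcc
        funext a
        by_cases ha : a ∈ R m
        · exact congrFun hcc.2 ⟨a, ha⟩
        · have := congrFun hcc.1 a
          simpa [ha] using this
    rw [Finset.card_product, Finset.card_univ, Fintype.card_fun, Fintype.card_fin,
      Fintype.card_coe] at hinj
    have hinj' : B.card ≤ G.card * k ^ h :=
      hinj.trans (Nat.mul_le_mul_left _ (Nat.pow_le_pow_right hk (hR m (by omega))))
    have hinjR : (B.card : ℝ) ≤ G.card * (k : ℝ) ^ h := by exact_mod_cast hinj'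
    rw [hB']
    have hsplitR : (G.card : ℝ) + ((B.filter (fun c => ¬ ∀ a ∈ R m, c a = i)).card : ℝ) =
        (B.card : ℝ) := by exact_mod_cast hsplit
    have h1 : (B.card : ℝ) / (k : ℝ) ^ h ≤ G.card := by
      rw [div_le_iff₀ (by linarith)]
      exact hinjR
    have h2 : ((B.filter (fun c => ¬ ∀ a ∈ R m, c a = i)).card : ℝ) ≤
        (1 - 1 / (k : ℝ) ^ h) * B.card := by
      have : (1 - 1 / (k : ℝ) ^ h) * B.card = B.card - (B.card : ℝ) / (k : ℝ) ^ h := by
        ring
      rw [this]
      linarith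
    have h3 : 0 ≤ 1 - 1 / (k : ℝ) ^ h := by
      rw [sub_nonneg, div_le_one (by linarith)]
      exact hkh
    calc _ ≤ (1 - 1 / (k : ℝ) ^ h) * B.card := h2
      _ ≤ (1 - 1 / (k : ℝ) ^ h) * ((1 - 1 / (k : ℝ) ^ h) ^ m * (k : ℝ) ^ (Fintype.card α)) :=
        mul_le_mul_of_nonneg_left ih' h3
      _ = (1 - 1 / (k : ℝ) ^ h) ^ (m + 1) * (k : ℝ) ^ (Fintype.card α) := by ring

/-- Random colouring: if every `x ∈ J` has many pairwise disjoint representing sets of bounded
size, some colouring with `k` colours makes at least half of the `x ∈ J` have a monochromatic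
representing set of colour `i`, for every colour `i`. -/
theorem coloring (k h : ℕ) (hk : 1 ≤ k) : ∃ m : ℕ, ∀ (N : ℕ) (J : Finset ℕ)
    (R : ℕ → ℕ → Finset ℕ),
    (∀ x ∈ J, ∀ j < m, (R x j).card ≤ h ∧ ∀ a ∈ R x j, a < N) →
    (∀ x ∈ J, ∀ j < m, ∀ l < m, j ≠ l → Disjoint (R x j) (R x l)) →
    ∃ c : ℕ → ℕ, ∀ i < k, ∃ G : Finset ℕ, G ⊆ J ∧ J.card ≤ 2 * G.card ∧
      ∀ x ∈ G, ∃ j < m, ∀ a ∈ R x j, c a = i := by
  classical
  have hk0 : (1 : ℝ) ≤ k := by exact_mod_cast hk
  have hkh : (1 : ℝ) ≤ (k : ℝ) ^ h := one_le_pow₀ hk0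
  obtain ⟨m, hm⟩ := exists_pow_lt_of_lt_one (x := 1 / (2 * (k : ℝ)))
    (y := 1 - 1 / (k : ℝ) ^ h) (by positivity) (by
      have : 0 < 1 / (k : ℝ) ^ h := by positivity
      linarith)
  refine ⟨m, ?_⟩
  intro N J R hR hdisj
  let R' : ℕ → ℕ → Finset (Fin N) := fun x j =>
    Finset.univ.filter (fun a : Fin N => (a : ℕ) ∈ R x j)
  have hR'c : ∀ x ∈ J, ∀ j < m, (R' x j).card ≤ h := by
    intro x hx j hj
    refine le_trans ?_ (hR x hx j hj).1
    apply Finset.card_le_card_of_injOn (fun a : Fin N => (a : ℕ))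
    · intro a ha
      exact Finset.mem_coe.2 (Finset.mem_filter.1 (Finset.mem_coe.1 ha)).2
    · intro a _ b _ hab
      exact Fin.ext hab
  have hR'd : ∀ x ∈ J, ∀ j < m, ∀ l < m, j ≠ l → Disjoint (R' x j) (R' x l) := by
    intro x hx j hj l hl hjl
    rw [Finset.disjoint_left]
    intro a ha hb
    exact (Finset.disjoint_left.1 (hdisj x hx j hj l hl hjl))
      (Finset.mem_filter.1 ha).2 (Finset.mem_filter.1 hb).2
  let bad : (Fin N → Fin k) → Fin k → ℕ → Prop := fun c i x => ∀ j < m, ∃ a ∈ R' x j, c a ≠ i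
  have hcount : ∀ i : Fin k, ∀ x ∈ J,
      ((Finset.univ.filter (fun c : Fin N → Fin k => bad c i x)).card : ℝ) ≤
        1 / (2 * (k : ℝ)) * (k : ℝ) ^ N := by
    intro i x hx
    have h1 := color_count k h hk i m (R' x) (hR'c x hx) (hR'd x hx)
    rw [Fintype.card_fin] at h1
    have h2 := h1.trans (mul_le_mul_of_nonneg_right hm.le
      (show (0 : ℝ) ≤ (k : ℝ) ^ N by positivity))
    refine le_trans (le_of_eq ?_) h2
    congr 2
    ext c
    simp only [Finset.mem_filter, Finset.mem_univ, true_and, bad]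
  have hsum : ∑ c : Fin N → Fin k, ∑ i : Fin k, ∑ x ∈ J, (if bad c i x then (1 : ℝ) else 0) ≤
      ∑ c : Fin N → Fin k, (J.card : ℝ) / 2 := by
    rw [Finset.sum_comm]
    have e1 : ∀ i : Fin k, ∑ c : Fin N → Fin k, ∑ x ∈ J, (if bad c i x then (1 : ℝ) else 0) ≤
        J.card * (1 / (2 * (k : ℝ)) * (k : ℝ) ^ N) := by
      intro i
      rw [Finset.sum_comm, ← nsmul_eq_mul, ← Finset.sum_const]
      apply Finset.sum_le_sum
      intro x hx
      rw [Finset.sum_boole]
      exact hcount i x hx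
    calc _ ≤ ∑ i : Fin k, J.card * (1 / (2 * (k : ℝ)) * (k : ℝ) ^ N) :=
          Finset.sum_le_sum (fun i _ => e1 i)
      _ = k * (J.card * (1 / (2 * (k : ℝ)) * (k : ℝ) ^ N)) := by
          rw [Finset.sum_const, Finset.card_univ, Fintype.card_fin, nsmul_eq_mul]
      _ = (k : ℝ) ^ N * ((J.card : ℝ) / 2) := by
          field_simp
      _ = ∑ c : Fin N → Fin k, (J.card : ℝ) / 2 := by
          rw [Finset.sum_const, Finset.card_univ, Fintype.card_fun, Fintype.card_fin,
            Fintype.card_fin, nsmul_eq_mul]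
          push_cast
          ring
  have hne : (Finset.univ : Finset (Fin N → Fin k)).Nonempty :=
    ⟨fun _ => ⟨0, by omega⟩, Finset.mem_univ _⟩
  obtain ⟨c, _, hc⟩ := Finset.exists_le_of_sum_le hne hsum
  refine ⟨fun a => if ha : a < N then (c ⟨a, ha⟩ : ℕ) else 0, ?_⟩
  intro i hi
  refine ⟨J.filter (fun x => ¬ bad c ⟨i, hi⟩ x), Finset.filter_subset _ _, ?_, ?_⟩
  · have h1 : ∑ x ∈ J, (if bad c ⟨i, hi⟩ x then (1 : ℝ) else 0) ≤ (J.card : ℝ) / 2 := by
      refine le_trans ?_ hc
      exact Finset.single_le_sum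
        (f := fun i : Fin k => ∑ x ∈ J, (if bad c i x then (1 : ℝ) else 0))
        (fun i _ => Finset.sum_nonneg (fun x _ => by split_ifs <;> norm_num))
        (Finset.mem_univ (⟨i, hi⟩ : Fin k))
    rw [Finset.sum_boole] at h1
    have h2 : (J.filter (fun x => bad c ⟨i, hi⟩ x)).card +
        (J.filter (fun x => ¬ bad c ⟨i, hi⟩ x)).card = J.card :=
      Finset.card_filter_add_card_filter_not _
    have h3 : 2 * (J.filter (fun x => bad c ⟨i, hi⟩ x)).card ≤ J.card := by
      have : (2 : ℝ) * ((J.filter (fun x => bad c ⟨i, hi⟩ x)).card : ℝ) ≤ J.card := by linarith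
      exact_mod_cast this
    omega
  · intro x hx
    have hx' := Finset.mem_filter.1 hx
    have hnb := hx'.2
    simp only [bad] at hnb
    push Not at hnb
    obtain ⟨j, hj, hj'⟩ := hnb
    refine ⟨j, hj, ?_⟩
    intro a ha
    have haN := (hR x hx'.1 j hj).2 a ha
    have := hj' ⟨a, haN⟩ (Finset.mem_filter.2 ⟨Finset.mem_univ _, ha⟩)
    simp only [haN, dif_pos, this]

end Pool.Agent.Helper34_EG
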