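import Pool.Agent.Helper34_EG.Basic

set_option autoImplicit false

namespace Pool.Agent.Helper34_EG

/-- Sums `∑ f i` over `a ≤ i < b` with `f i ∈ S i`. -/
def SS (S : ℕ → Finset ℕ) (a b : ℕ) : Set ℕ :=
  {x | ∃ f : ℕ → ℕ, (∀ i ∈ Finset.Ico a b, f i ∈ S i) ∧ ∑ i ∈ Finset.Ico a b, f i = x}

lemma SS_add {S : ℕ → Finset ℕ} {a b c x y : ℕ} (hab : a ≤ b) (hbc : b ≤ c)
    (hx : x ∈ SS S a b) (hy : y ∈ SS S b c) : x + y ∈ SS S a c := by
  obtain ⟨f, hf, rfl⟩ := hx
  obtain ⟨g, hg, rfl⟩ := hy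
  refine ⟨fun i => if i < b then f i else g i, ?_, ?_⟩
  · intro i hi
    rw [Finset.mem_Ico] at hi
    by_cases h : i < b
    · simp only [h, if_true]; exact hf i (Finset.mem_Ico.2 ⟨hi.1, h⟩)
    · simp only [h, if_false]; exact hg i (Finset.mem_Ico.2 ⟨not_lt.1 h, hi.2⟩)
  · rw [← Finset.sum_Ico_consecutive _ hab hbc]
    congr 1
    · apply Finset.sum_congr rfl
      intro i hi
      simp [(Finset.mem_Ico.1 hi).2]
    · apply Finset.sum_congr rfl
      intro i hi
      simp [not_lt.2 (Finset.mem_Ico.1 hi).1]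

/-- `S` is a subset of `[0,n]` with at least `n / D` elements. -/
def Dense (D n : ℕ) (S : Finset ℕ) : Prop := (∀ x ∈ S, x ≤ n) ∧ n ≤ D * S.card

lemma SS_le {S : ℕ → Finset ℕ} {D n : ℕ} (hS : ∀ i, Dense D n (S i)) {a b x : ℕ}
    (hx : x ∈ SS S a b) : x ≤ (b - a) * n := by
  obtain ⟨f, hf, rfl⟩ := hx
  calc ∑ i ∈ Finset.Ico a b, f i ≤ ∑ i ∈ Finset.Ico a b, n :=
        Finset.sum_le_sum (fun i hi => (hS i).1 _ (hf i hi))
    _ = (b - a) * n := by simp

lemma Dense.nonempty {D n : ℕ} (hn : 0 < n) {S : Finset ℕ} (h : Dense D n S) :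
    S.Nonempty := by
  rw [← Finset.card_pos]
  rcases Nat.eq_zero_or_pos S.card with h0 | h0
  · have := h.2; rw [h0] at this; omega
  · exact h0

lemma SS_nonempty {S : ℕ → Finset ℕ} {D n : ℕ} (hn : 0 < n) (hS : ∀ i, Dense D n (S i))
    (a b : ℕ) : (SS S a b).Nonempty := by
  have : ∀ i, ∃ x, x ∈ S i := fun i => (hS i).nonempty hn
  choose f hf using this
  exact ⟨_, f, fun i _ => hf i, rfl⟩

/-- the window of `T` on the progression `u, u+q, ..., u+(L-1)q` -/
noncomputable def Wn (T : Set ℕ) (q L u : ℕ) : Finset ℕ := by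
  classical exact (Finset.range L).filter (fun y => u + q * y ∈ T)

lemma mem_Wn {T : Set ℕ} {q L u y : ℕ} : y ∈ Wn T q L u ↔ y < L ∧ u + q * y ∈ T := by
  classical
  simp [Wn]

lemma Wn_card_le (T : Set ℕ) (q L u : ℕ) : (Wn T q L u).card ≤ L := by
  have : Wn T q L u ⊆ Finset.range L := by
    intro y hy
    exact Finset.mem_range.2 (mem_Wn.1 hy).1
  simpa using Finset.card_le_card this

lemma growth {T P T' : Set ℕ} {q L u : ℕ} (hTP : ∀ t ∈ T, ∀ p ∈ P, t + p ∈ T')
    (hP : ∀ y, 1 ≤ y → y < L → ∃ β ∈ P, ∃ β' ∈ P, β = β' + q * y)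
    (hX : 4 * (Wn T q L u).card ≤ 3 * L) :
    ∃ u', 9 * (Wn T q L u).card ≤ 8 * (Wn T' q L u').card := by
  classical
  set X := Wn T q L u with hXdef
  rcases Finset.eq_empty_or_nonempty X with hemp | hne
  · exact ⟨0, by rw [hemp]; simp⟩
  have hXsub : X ⊆ Finset.range L := by
    intro y hy
    exact Finset.mem_range.2 (mem_Wn.1 hy).1
  obtain ⟨x0, hx0⟩ := hne
  have hL : 0 < L := by
    have := Finset.mem_range.1 (hXsub hx0); omega
  set Xc := Finset.range L \ X with hXc
  have hcardc : Xc.card = L - X.card := by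
    rw [hXc, Finset.card_sdiff_of_subset hXsub, Finset.card_range]
  have hXL : X.card ≤ L := Wn_card_le _ _ _ _
  let g : ℕ × ℕ → ℤ := fun p => (p.2 : ℤ) - (p.1 : ℤ)
  have hmaps : ∀ p ∈ X ×ˢ Xc, g p ∈ Finset.Ioo (-(L : ℤ)) (L : ℤ) := by
    intro p hp
    rw [Finset.mem_product] at hp
    have h1 := Finset.mem_range.1 (hXsub hp.1)
    have h2 := Finset.mem_range.1 (Finset.mem_sdiff.1 hp.2).1
    simp only [g, Finset.mem_Ioo]
    omega
  have hcardI : (Finset.Ioo (-(L : ℤ)) (L : ℤ)).card = 2 * L - 1 := by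
    rw [Int.card_Ioo]; omega
  have hne' : (Finset.Ioo (-(L : ℤ)) (L : ℤ)).Nonempty := ⟨0, by simp; omega⟩
  obtain ⟨d, hd, hfib⟩ := Finset.exists_le_card_fiber_of_nsmul_le_card_of_maps_to
    (s := X ×ˢ Xc) (t := Finset.Ioo (-(L : ℤ)) (L : ℤ)) (f := g)
    (b := (X.card : ℚ) / 8) hmaps hne' (by
      rw [hcardI, Finset.card_product, hcardc]
      rw [nsmul_eq_mul]
      push_cast [Nat.cast_sub hXL, Nat.cast_sub (show 1 ≤ 2 * L by omega)]
      have h1 : (4 : ℚ) * X.card ≤ 3 * L := by exact_mod_cast hX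
      have h2 : (0 : ℚ) ≤ X.card := by positivity
      have h3 : (0 : ℚ) < L := by exact_mod_cast hL
      nlinarith)
  set F := (X ×ˢ Xc).filter (fun p => g p = d) with hF
  have hFcard : X.card ≤ 8 * F.card := by
    have : (X.card : ℚ) ≤ 8 * F.card := by
      have h8 : (X.card : ℚ) / 8 ≤ F.card := hfib
      linarith
    exact_mod_cast this
  -- the image of `F` under the second projection
  set Z := F.image Prod.snd with hZ
  have hZcard : Z.card = F.card := by
    apply Finset.card_image_of_injOn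
    intro p hp p' hp' h
    simp only [hF, Finset.coe_filter, Set.mem_ofPred_eq, g] at hp hp'
    have e1 := hp.2
    have e2 := hp'.2
    ext
    · have h' : p.2 = p'.2 := h
      rw [h'] at e1
      omega
    · exact h
  have hZdisj : Disjoint X Z := by
    rw [Finset.disjoint_left]
    intro x hx hxZ
    obtain ⟨p, hp, rfl⟩ := Finset.mem_image.1 hxZ
    have hp' := (Finset.mem_product.1 (Finset.mem_filter.1 hp).1).2
    exact (Finset.mem_sdiff.1 hp').2 hx
  have hZsub : Z ⊆ Finset.range L := by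
    intro z hz
    obtain ⟨p, hp, rfl⟩ := Finset.mem_image.1 hz
    have hp' := (Finset.mem_product.1 (Finset.mem_filter.1 hp).1).2
    exact (Finset.mem_sdiff.1 hp').1
  have hfinish : ∀ u', X ∪ Z ⊆ Wn T' q L u' → 9 * X.card ≤ 8 * (Wn T' q L u').card := by
    intro u' hsub
    have h1 := Finset.card_le_card hsub
    rw [Finset.card_union_of_disjoint hZdisj, hZcard] at h1
    omega
  rcases lt_trichotomy d 0 with hneg | hzero | hpos
  · obtain ⟨y, hy⟩ : ∃ y : ℕ, d = -(y : ℤ) := ⟨d.natAbs, by omega⟩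
    rw [Finset.mem_Ioo] at hd
    obtain ⟨β, hβ, β', hβ', hββ⟩ := hP y (by omega) (by omega)
    refine ⟨u + β, hfinish _ ?_⟩
    intro x hx
    rcases Finset.mem_union.1 hx with hx | hx
    · have h1 := mem_Wn.1 hx
      refine mem_Wn.2 ⟨h1.1, ?_⟩
      have := hTP _ h1.2 _ hβ
      convert this using 1
      ring
    · obtain ⟨p, hp, rfl⟩ := Finset.mem_image.1 hx
      have hp1 := Finset.mem_product.1 (Finset.mem_filter.1 hp).1
      have hp2 : (p.2 : ℤ) - (p.1 : ℤ) = d := (Finset.mem_filter.1 hp).2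
      have h1 := mem_Wn.1 hp1.1
      refine mem_Wn.2 ⟨Finset.mem_range.1 (Finset.mem_sdiff.1 hp1.2).1, ?_⟩
      have h2 : p.1 = p.2 + y := by omega
      have := hTP _ h1.2 _ hβ'
      convert this using 1
      rw [h2, hββ]
      ring
  · exfalso
    have : F = ∅ := by
      rw [Finset.eq_empty_iff_forall_notMem]
      intro p hp
      have hp1 := Finset.mem_product.1 (Finset.mem_filter.1 hp).1
      have hp2 : (p.2 : ℤ) - (p.1 : ℤ) = d := (Finset.mem_filter.1 hp).2
      have h2 : p.1 = p.2 := by omega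
      exact (Finset.mem_sdiff.1 hp1.2).2 (h2 ▸ hp1.1)
    rw [this, Finset.card_empty] at hFcard
    have : 0 < X.card := Finset.card_pos.2 ⟨x0, hx0⟩
    omega
  · obtain ⟨y, hy⟩ : ∃ y : ℕ, d = (y : ℤ) := ⟨d.natAbs, by omega⟩
    rw [Finset.mem_Ioo] at hd
    obtain ⟨β, hβ, β', hβ', hββ⟩ := hP y (by omega) (by omega)
    refine ⟨u + β', hfinish _ ?_⟩
    intro x hx
    rcases Finset.mem_union.1 hx with hx | hx
    · have h1 := mem_Wn.1 hx
      refine mem_Wn.2 ⟨h1.1, ?_⟩
      have := hTP _ h1.2 _ hβ'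
      convert this using 1
      ring
    · obtain ⟨p, hp, rfl⟩ := Finset.mem_image.1 hx
      have hp1 := Finset.mem_product.1 (Finset.mem_filter.1 hp).1
      have hp2 : (p.2 : ℤ) - (p.1 : ℤ) = d := (Finset.mem_filter.1 hp).2
      have h1 := mem_Wn.1 hp1.1
      refine mem_Wn.2 ⟨Finset.mem_range.1 (Finset.mem_sdiff.1 hp1.2).1, ?_⟩
      have h2 : p.2 = p.1 + y := by omega
      have := hTP _ h1.2 _ hβ
      convert this using 1
      rw [h2, hββ]
      ring

/-- Small differences: some multiple `j y` with `1 ≤ j ≤ 3 D` is a difference of elements of `S`. -/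
lemma diff {D n y : ℕ} (hD : 1 ≤ D) (hn : 1 ≤ n) {S : Finset ℕ} (hS : Dense D n S)
    (hy : 3 * D * y ≤ n) (hy1 : 1 ≤ y) :
    ∃ j, 1 ≤ j ∧ j ≤ 3 * D ∧ ∃ b ∈ S, ∃ b' ∈ S, b = b' + j * y := by
  classical
  set r := 3 * D with hr
  have hcard : (Finset.range (2 * n + 1)).card < (Finset.range (r + 1) ×ˢ S).card := by
    rw [Finset.card_product, Finset.card_range, Finset.card_range]
    have h1 := hS.2
    have h2 : D * (2 * n + 1) < D * ((r + 1) * S.card) := by
      calc D * (2 * n + 1) = 2 * (D * n) + D := by ring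
        _ ≤ 2 * (D * n) + D * n := by nlinarith
        _ < 3 * D * n + n := by nlinarith
        _ = (r + 1) * n := by rw [hr]; ring
        _ ≤ (r + 1) * (D * S.card) := Nat.mul_le_mul_left _ h1
        _ = D * ((r + 1) * S.card) := by ring
    exact lt_of_mul_lt_mul_left h2 (Nat.zero_le _)
  obtain ⟨p, hp, p', hp', hne, heq⟩ := Finset.exists_ne_map_eq_of_card_lt_of_maps_to hcard
    (f := fun p : ℕ × ℕ => p.2 + p.1 * y) (by
      intro p hp
      have hp1 := Finset.mem_product.1 (Finset.mem_coe.1 hp)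
      rw [Finset.mem_coe, Finset.mem_range]
      have h1 := hS.1 _ hp1.2
      have h2 := Finset.mem_range.1 hp1.1
      have h3 : p.1 * y ≤ r * y := Nat.mul_le_mul_right _ (by omega)
      show p.2 + p.1 * y < 2 * n + 1
      omega)
  have hp1 := Finset.mem_product.1 hp
  have hp1' := Finset.mem_product.1 hp'
  have hr1 := Finset.mem_range.1 hp1.1
  have hr1' := Finset.mem_range.1 hp1'.1
  replace heq : p.2 + p.1 * y = p'.2 + p'.1 * y := heq
  rcases lt_trichotomy p.1 p'.1 with hlt | he | hgt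
  · refine ⟨p'.1 - p.1, by omega, by omega, p.2, hp1.2, p'.2, hp1'.2, ?_⟩
    have : p'.1 = p.1 + (p'.1 - p.1) := by omega
    rw [this] at heq
    have h2 : (p.1 + (p'.1 - p.1)) * y = p.1 * y + (p'.1 - p.1) * y := by ring
    omega
  · exfalso
    apply hne
    ext
    · exact he
    · rw [he] at heq; omega
  · refine ⟨p.1 - p'.1, by omega, by omega, p'.2, hp1'.2, p.2, hp1.2, ?_⟩
    have : p.1 = p'.1 + (p.1 - p'.1) := by omega
    rw [this] at heq
    have h2 : (p'.1 + (p.1 - p'.1)) * y = p'.1 * y + (p.1 - p'.1) * y := by ring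
    omega

/-- Combining differences of many sets. -/
lemma comb {D n y : ℕ} (hD : 1 ≤ D) (hn : 1 ≤ n) {S : ℕ → Finset ℕ}
    (hS : ∀ i, Dense D n (S i)) (hy : 3 * D * y ≤ n) (hy1 : 1 ≤ y) (a : ℕ) :
    ∃ β ∈ SS S a (a + 3 * D * (3 * D).factorial),
      ∃ β' ∈ SS S a (a + 3 * D * (3 * D).factorial), β = β' + (3 * D).factorial * y := by
  classical
  set r := 3 * D with hr
  set q := r.factorial with hq
  have := fun i => diff hD hn (hS i) hy hy1
  choose j hj1 hj2 b hb b' hb' hbb using this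
  obtain ⟨j0, hj0, hfib⟩ := Finset.exists_le_card_fiber_of_mul_le_card_of_maps_to
    (s := Finset.Ico a (a + r * q)) (t := Finset.Icc 1 r) (f := j) (n := q)
    (fun i _ => Finset.mem_Icc.2 ⟨hj1 i, hj2 i⟩) ⟨1, by simp; omega⟩ (by simp)
  rw [Finset.mem_Icc] at hj0
  have hdvd : j0 ∣ q := Nat.dvd_factorial (by omega) hj0.2
  have hle : q / j0 ≤ ({x ∈ Finset.Ico a (a + r * q) | j x = j0}).card :=
    (Nat.div_le_self _ _).trans hfib
  obtain ⟨I, hIsub, hIcard⟩ := Finset.exists_subset_card_eq hle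
  have hIsub' : I ⊆ Finset.Ico a (a + r * q) := hIsub.trans (Finset.filter_subset _ _)
  refine ⟨∑ i ∈ Finset.Ico a (a + r * q), (if i ∈ I then b i else b' i),
    ⟨_, ?_, rfl⟩, ∑ i ∈ Finset.Ico a (a + r * q), b' i, ⟨_, fun i _ => hb' i, rfl⟩, ?_⟩
  · intro i _
    by_cases h : i ∈ I
    · simp only [h, if_true]; exact hb i
    · simp only [h, if_false]; exact hb' i
  · have h1 : ∀ i ∈ Finset.Ico a (a + r * q), (if i ∈ I then b i else b' i) =
        b' i + (if i ∈ I then j0 * y else 0) := by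
      intro i _
      by_cases h : i ∈ I
      · simp only [h, if_true]
        have : j i = j0 := (Finset.mem_filter.1 (hIsub h)).2
        rw [hbb i, this]
      · simp only [h, if_false, add_zero]
    rw [Finset.sum_congr rfl h1, Finset.sum_add_distrib, ← Finset.sum_filter,
      Finset.filter_mem_eq_inter, Finset.inter_eq_right.2 hIsub', Finset.sum_const, hIcard,
      smul_eq_mul, ← mul_assoc, Nat.div_mul_cancel hdvd]

lemma iter {D n : ℕ} (hD : 1 ≤ D) (hn : 1 ≤ n) {S : ℕ → Finset ℕ}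
    (hS : ∀ i, Dense D n (S i)) (a : ℕ) (x0 u0 : ℕ)
    (hu0 : x0 ≤ (Wn (SS S a (a + 1)) (3 * D).factorial (n / (3 * D).factorial + 1) u0).card)
    (m : ℕ) :
    ∃ u, 3 * (n / (3 * D).factorial + 1) < 4 * (Wn (SS S a (a + 1 + m * (3 * D * (3 * D).factorial)))
        (3 * D).factorial (n / (3 * D).factorial + 1) u).card ∨
      9 ^ m * x0 ≤ 8 ^ m * (Wn (SS S a (a + 1 + m * (3 * D * (3 * D).factorial)))
        (3 * D).factorial (n / (3 * D).factorial + 1) u).card := by
  set r := 3 * D with hr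
  set q := r.factorial with hq
  set L := n / q + 1 with hL
  induction m with
  | zero => exact ⟨u0, Or.inr (by simpa using hu0)⟩
  | succ m ih =>
    obtain ⟨u, hu⟩ := ih
    set T := SS S a (a + 1 + m * (r * q)) with hT
    set P := SS S (a + 1 + m * (r * q)) (a + 1 + (m + 1) * (r * q)) with hP
    have hTP : ∀ t ∈ T, ∀ p ∈ P, t + p ∈ SS S a (a + 1 + (m + 1) * (r * q)) := by
      intro t ht p hp
      exact SS_add (by omega) (by
        have : (m + 1) * (r * q) = m * (r * q) + r * q := by ring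
        omega) ht hp
    rcases Nat.lt_or_ge (3 * L) (4 * (Wn T q L u).card) with hbig | hsmall
    · obtain ⟨β, hβ⟩ := SS_nonempty hn hS (a + 1 + m * (r * q)) (a + 1 + (m + 1) * (r * q))
      refine ⟨u + β, Or.inl (lt_of_lt_of_le hbig ?_)⟩
      apply Nat.mul_le_mul_left
      apply Finset.card_le_card
      intro x hx
      have h1 := mem_Wn.1 hx
      refine mem_Wn.2 ⟨h1.1, ?_⟩
      have := hTP _ h1.2 _ hβ
      convert this using 1
      ring
    · have hdiff : ∀ y, 1 ≤ y → y < L → ∃ β ∈ P, ∃ β' ∈ P, β = β' + q * y := by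
        intro y hy1 hyL
        have hyn : r * y ≤ n := by
          have h1 : y ≤ n / q := by omega
          have h2 : q * y ≤ n := by
            calc q * y ≤ q * (n / q) := Nat.mul_le_mul_left _ h1
              _ ≤ n := Nat.mul_div_le _ _
          have h3 : r ≤ q := Nat.self_le_factorial r
          calc r * y ≤ q * y := Nat.mul_le_mul_right _ h3
            _ ≤ n := h2
        have := comb hD hn hS hyn hy1 (a + 1 + m * (r * q))
        have e : a + 1 + m * (r * q) + r * q = a + 1 + (m + 1) * (r * q) := by ring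
        rw [← hr, ← hq, e] at this
        exact this
      obtain ⟨u', hu'⟩ := growth hTP hdiff hsmall
      refine ⟨u', Or.inr ?_⟩
      rcases hu with hu | hu
      · omega
      · calc 9 ^ (m + 1) * x0 = 9 * (9 ^ m * x0) := by ring
          _ ≤ 9 * (8 ^ m * (Wn T q L u).card) := Nat.mul_le_mul_left _ hu
          _ = 8 ^ m * (9 * (Wn T q L u).card) := by ring
          _ ≤ 8 ^ m * (8 * (Wn (SS S a (a + 1 + (m + 1) * (r * q))) q L u').card) :=
            Nat.mul_le_mul_left _ hu'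
          _ = 8 ^ (m + 1) * (Wn (SS S a (a + 1 + (m + 1) * (r * q))) q L u').card := by ring

end Pool.Agent.Helper34_EG
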