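import Pool.Agent.Helper34_EG.Dense

set_option autoImplicit false

namespace Pool.Agent.Helper34_EG

lemma exists_start {D n q : ℕ} (hq : 0 < q) {S : ℕ → Finset ℕ}
    (hS : ∀ i, Dense D n (S i)) (a : ℕ) :
    ∃ u0, n / q ≤ D * (Wn (SS S a (a + 1)) q (n / q + 1) u0).card := by
  classical
  obtain ⟨u0, hu0, hfib⟩ := Finset.exists_le_card_fiber_of_nsmul_le_card_of_maps_to
    (s := S a) (t := Finset.range q) (f := fun s => s % q)
    (b := ((S a).card : ℚ) / q) (fun s _ => Finset.mem_range.2 (Nat.mod_lt _ hq))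
    ⟨0, Finset.mem_range.2 hq⟩ (by
      rw [Finset.card_range, nsmul_eq_mul]
      have : (q : ℚ) ≠ 0 := by positivity
      field_simp
      rfl)
  set F := (S a).filter (fun s => s % q = u0) with hF
  have h1 : (S a).card ≤ q * F.card := by
    have h2 : ((S a).card : ℚ) / q ≤ F.card := hfib
    have hq' : (0 : ℚ) < q := by exact_mod_cast hq
    rw [div_le_iff₀ hq'] at h2
    have h3 : ((S a).card : ℚ) ≤ q * F.card := by linarith
    exact_mod_cast h3
  refine ⟨u0, ?_⟩
  have h2 : F.card ≤ (Wn (SS S a (a + 1)) q (n / q + 1) u0).card := by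
    apply Finset.card_le_card_of_injOn (fun s => s / q)
    · intro s hs
      have hs1 := Finset.mem_filter.1 (Finset.mem_coe.1 hs)
      rw [Finset.mem_coe, mem_Wn]
      constructor
      · have : s ≤ n := (hS a).1 s hs1.1
        have := Nat.div_le_div_right (c := q) this
        show s / q < n / q + 1
        omega
      · have h3 : u0 + q * (s / q) = s := by
          rw [← hs1.2]; exact Nat.mod_add_div s q
        show u0 + q * (s / q) ∈ SS S a (a + 1)
        rw [h3]
        refine ⟨fun _ => s, ?_, ?_⟩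
        · intro i hi
          rw [Finset.mem_Ico] at hi
          have : i = a := by omega
          rw [this]; exact hs1.1
        · simp
    · intro s hs s' hs' h
      have hs1 := Finset.mem_filter.1 (Finset.mem_coe.1 hs)
      have hs1' := Finset.mem_filter.1 (Finset.mem_coe.1 hs')
      have e1 : s % q + q * (s / q) = s := Nat.mod_add_div s q
      have e2 : s' % q + q * (s' / q) = s' := Nat.mod_add_div s' q
      have h' : s / q = s' / q := h
      rw [hs1.2, h'] at e1
      rw [hs1'.2] at e2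
      omega
  have h3 : q * (n / q) ≤ q * (D * (Wn (SS S a (a + 1)) q (n / q + 1) u0).card) := by
    calc q * (n / q) ≤ n := Nat.mul_div_le _ _
      _ ≤ D * (S a).card := (hS a).2
      _ ≤ D * (q * F.card) := Nat.mul_le_mul_left _ h1
      _ ≤ D * (q * (Wn (SS S a (a + 1)) q (n / q + 1) u0).card) :=
        Nat.mul_le_mul_left _ (Nat.mul_le_mul_left _ h2)
      _ = q * (D * (Wn (SS S a (a + 1)) q (n / q + 1) u0).card) := by ring
  exact le_of_mul_le_mul_left h3 hq

lemma exists_pow (D : ℕ) : ∃ m : ℕ, 2 * D * 8 ^ m < 9 ^ m := by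
  have h1 : Filter.Tendsto (fun m : ℕ => ((9 : ℝ) / 8) ^ m) Filter.atTop Filter.atTop :=
    tendsto_pow_atTop_atTop_of_one_lt (by norm_num)
  obtain ⟨m, hm⟩ := (h1.eventually (Filter.eventually_gt_atTop (2 * (D : ℝ)))).exists
  refine ⟨m, ?_⟩
  rw [div_pow, lt_div_iff₀ (by positivity)] at hm
  exact_mod_cast hm

lemma exists_big {D : ℕ} (hD : 1 ≤ D) {m : ℕ} (hm : 2 * D * 8 ^ m < 9 ^ m) {n : ℕ}
    (hn : (3 * D).factorial ≤ n) {S : ℕ → Finset ℕ}
    (hS : ∀ i, Dense D n (S i)) (a : ℕ) :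
    ∃ u, 3 * (n / (3 * D).factorial + 1) <
      4 * (Wn (SS S a (a + 1 + m * (3 * D * (3 * D).factorial)))
        (3 * D).factorial (n / (3 * D).factorial + 1) u).card := by
  have hq : 0 < (3 * D).factorial := Nat.factorial_pos _
  have hn1 : 1 ≤ n := le_trans hq hn
  obtain ⟨u0, hu0⟩ := exists_start hq hS a
  obtain ⟨u, hu | hu⟩ := iter hD hn1 hS a _ u0 le_rfl m
  · exact ⟨u, hu⟩
  · exfalso
    set q := (3 * D).factorial with hqdef
    set x0 := (Wn (SS S a (a + 1)) q (n / q + 1) u0).card with hx0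
    set X := (Wn (SS S a (a + 1 + m * (3 * D * q))) q (n / q + 1) u).card with hX
    have h1 : X ≤ n / q + 1 := Wn_card_le _ _ _ _
    have h2 : 1 ≤ n / q := (Nat.one_le_div_iff hq).2 hn
    have h3 : 0 < x0 := by
      rcases Nat.eq_zero_or_pos x0 with h | h
      · rw [h] at hu0; omega
      · exact h
    have h4 : 9 ^ m * x0 ≤ 2 * D * 8 ^ m * x0 := by
      calc 9 ^ m * x0 ≤ 8 ^ m * X := hu
        _ ≤ 8 ^ m * (n / q + 1) := Nat.mul_le_mul_left _ h1
        _ ≤ 8 ^ m * (2 * (n / q)) := Nat.mul_le_mul_left _ (by omega)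
        _ ≤ 8 ^ m * (2 * (D * x0)) := Nat.mul_le_mul_left _ (by omega)
        _ = 2 * D * 8 ^ m * x0 := by ring
    have h5 := Nat.mul_lt_mul_of_pos_right hm h3
    omega

lemma mid {L z : ℕ} {X X' : Finset ℕ} (hXs : ∀ x ∈ X, x < L) (hXs' : ∀ x ∈ X', x < L)
    (hX : 3 * L < 4 * X.card) (hX' : 3 * L < 4 * X'.card) (hz : z < L) (hz2 : L ≤ 2 * (z + 1)) :
    ∃ x ∈ X, ∃ x' ∈ X', x + x' = z := by
  classical
  have hgen : ∀ Y : Finset ℕ, (∀ x ∈ Y, x < L) →
      Y.card ≤ (Y.filter (fun x => x ≤ z)).card + (L - 1 - z) := by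
    intro Y hY
    have h1 := Finset.card_filter_add_card_filter_not (s := Y) (fun x => x ≤ z)
    have h2 : (Y.filter (fun x => ¬ x ≤ z)).card ≤ L - 1 - z := by
      have : Y.filter (fun x => ¬ x ≤ z) ⊆ Finset.Ico (z + 1) L := by
        intro x hx
        have hx1 := Finset.mem_filter.1 hx
        have := hY x hx1.1
        rw [Finset.mem_Ico]
        omega
      have := Finset.card_le_card this
      rw [Nat.card_Ico] at this
      omega
    omega
  have g1 := hgen X hXs
  have g2 := hgen X' hXs'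
  set Z := (X'.filter (fun x => x ≤ z)).image (fun x => z - x) with hZ
  have hZc : Z.card = (X'.filter (fun x => x ≤ z)).card := by
    apply Finset.card_image_of_injOn
    intro x hx x' hx' h
    have h1 := (Finset.mem_filter.1 (Finset.mem_coe.1 hx)).2
    have h2 := (Finset.mem_filter.1 (Finset.mem_coe.1 hx')).2
    have h3 : z - x = z - x' := h
    omega
  have hsub1 : X.filter (fun x => x ≤ z) ⊆ Finset.range (z + 1) := by
    intro x hx
    have := (Finset.mem_filter.1 hx).2
    rw [Finset.mem_range]; omega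
  have hsub2 : Z ⊆ Finset.range (z + 1) := by
    intro x hx
    obtain ⟨y, _, rfl⟩ := Finset.mem_image.1 hx
    rw [Finset.mem_range]; omega
  obtain ⟨x, hx⟩ := Finset.inter_nonempty_of_card_lt_card_add_card hsub1 hsub2 (by
    rw [Finset.card_range, hZc]
    omega)
  rw [Finset.mem_inter] at hx
  obtain ⟨x', hx', hxx⟩ := Finset.mem_image.1 hx.2
  have h1 := Finset.mem_filter.1 hx.1
  have h2 := Finset.mem_filter.1 hx'
  exact ⟨x, h1.1, x', h2.1, by omega⟩

lemma exists_ap (D : ℕ) (hD : 1 ≤ D) : ∃ K0 : ℕ, ∀ n, 8 * (3 * D).factorial ≤ n →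
    ∀ S : ℕ → Finset ℕ, (∀ i, Dense D n (S i)) → ∀ a, ∃ u,
      ∀ z ≤ n / (3 * D).factorial / 4, u + (3 * D).factorial * z ∈ SS S a (a + K0) := by
  obtain ⟨m, hm⟩ := exists_pow D
  refine ⟨2 * (1 + m * (3 * D * (3 * D).factorial)), ?_⟩
  intro n hn S hS a
  set q := (3 * D).factorial with hq
  have hqpos : 0 < q := Nat.factorial_pos _
  set w := 1 + m * (3 * D * q) with hw
  obtain ⟨u, hu⟩ := exists_big hD hm (show q ≤ n by omega) hS a
  obtain ⟨u', hu'⟩ := exists_big hD hm (show q ≤ n by omega) hS (a + w)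
  rw [← hq] at hu hu'
  have e1 : a + 1 + m * (3 * D * q) = a + w := by omega
  have e2 : a + w + 1 + m * (3 * D * q) = a + 2 * w := by omega
  rw [e1] at hu
  rw [e2] at hu'
  set L := n / q + 1 with hL
  refine ⟨u + u' + q * (L / 2), ?_⟩
  intro z hz
  have ht : 8 ≤ n / q := by
    rw [Nat.le_div_iff_mul_le hqpos]; exact hn
  obtain ⟨x, hx, x', hx', hxx⟩ := mid (z := L / 2 + z) (L := L)
    (fun x hx => (mem_Wn.1 hx).1) (fun x hx => (mem_Wn.1 hx).1) hu hu' (by omega) (by omega)
  have h1 := (mem_Wn.1 hx).2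
  have h2 := (mem_Wn.1 hx').2
  have h3 := SS_add (by omega) (by omega) h1 h2
  have e3 : u + u' + q * (L / 2) + q * z = u + q * x + (u' + q * x') := by
    have : q * (L / 2) + q * z = q * x + q * x' := by rw [← mul_add, ← hxx, mul_add]
    omega
  rw [e3]
  exact h3

lemma exists_ap_rep (D : ℕ) (hD : 1 ≤ D) : ∃ K0 : ℕ, ∀ n, 8 * (3 * D).factorial ≤ n →
    ∀ S : ℕ → Finset ℕ, (∀ i, Dense D n (S i)) → ∀ R a, ∃ u,
      ∀ z ≤ R * (n / (3 * D).factorial / 4),
        u + (3 * D).factorial * z ∈ SS S a (a + R * K0) := by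
  obtain ⟨K0, hK0⟩ := exists_ap D hD
  refine ⟨K0, ?_⟩
  intro n hn S hS R a
  set q := (3 * D).factorial with hq
  set l := n / q / 4 with hl
  induction R with
  | zero =>
    refine ⟨0, ?_⟩
    intro z hz
    have : z = 0 := by omega
    subst this
    refine ⟨fun _ => 0, ?_, ?_⟩
    · intro i hi
      simp at hi
    · simp
  | succ R ih =>
    obtain ⟨u, hu⟩ := ih
    obtain ⟨u', hu'⟩ := hK0 n hn S hS (a + R * K0)
    refine ⟨u + u', ?_⟩
    intro z hz
    have hsplit : (R + 1) * l = R * l + l := by ring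
    have hsp : ∀ A B z : ℕ, z ≤ A + B → ∃ z1 z2, z1 ≤ A ∧ z2 ≤ B ∧ z = z1 + z2 :=
      fun A B z h => ⟨min z A, z - min z A, by omega, by omega, by omega⟩
    obtain ⟨z1, z2, hz1, hz2, hzz⟩ := hsp (R * l) l z (hsplit ▸ hz)
    have h1 := hu z1 hz1
    have h2 := hu' z2 hz2
    have e2 : a + R * K0 + K0 = a + (R + 1) * K0 := by ring
    rw [e2] at h2
    have h3 := SS_add (by omega) (by rw [← e2]; omega) h1 h2
    have e3 : u + u' + q * z = u + q * z1 + (u' + q * z2) := by rw [hzz]; ring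
    rw [e3]
    exact h3

/-- Lemma C: sums of boundedly many dense sets contain long progressions of bounded difference. -/
theorem lemmaC (D : ℕ) (hD : 1 ≤ D) (M : ℕ) : ∃ K q n0 : ℕ, 0 < q ∧ ∀ n, n0 ≤ n →
    ∀ S : ℕ → Finset ℕ, (∀ i, Dense D n (S i)) → ∃ u, u ≤ K * n ∧
      ∀ y ≤ M * n, u + q * y ∈ SS S 0 K := by
  obtain ⟨K0, hK0⟩ := exists_ap_rep D hD
  set q := (3 * D).factorial with hq
  have hqpos : 0 < q := Nat.factorial_pos _
  refine ⟨16 * q * M * K0, q, 8 * q, hqpos, ?_⟩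
  intro n hn S hS
  obtain ⟨u, hu⟩ := hK0 n hn S hS (16 * q * M) 0
  rw [Nat.zero_add] at hu
  have ht : 8 ≤ n / q := by
    rw [Nat.le_div_iff_mul_le hqpos]; exact hn
  refine ⟨u, ?_, ?_⟩
  · have h0 := hu 0 (Nat.zero_le _)
    rw [mul_zero, add_zero] at h0
    have := SS_le hS h0
    simpa using this
  · intro y hy
    apply hu
    have h1 : n < q * (n / q + 1) := by
      have := Nat.lt_mul_div_succ n hqpos
      simpa using this
    have h2 : n / q ≤ 8 * (n / q / 4) := by omega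
    have h3 : n ≤ 16 * q * (n / q / 4) := by
      calc n ≤ q * (n / q + 1) := h1.le
        _ ≤ q * (2 * (n / q)) := Nat.mul_le_mul_left _ (by omega)
        _ ≤ q * (2 * (8 * (n / q / 4))) := Nat.mul_le_mul_left _ (by omega)
        _ = 16 * q * (n / q / 4) := by ring
    calc y ≤ M * n := hy
      _ ≤ M * (16 * q * (n / q / 4)) := Nat.mul_le_mul_left _ h3
      _ = 16 * q * M * (n / q / 4) := by ring

end Pool.Agent.Helper34_EG
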