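import Pool.Agent.Helper34_EG.Basic

set_option autoImplicit false

namespace Pool.Agent.Helper34_EG

lemma Fs_finite_card (h : ℕ) (U : Finset ℕ) :
    ∃ G : Finset ℕ, (∀ x ∈ Fs h (U : Set ℕ), x ∈ G) ∧ G.card ≤ (U.card + 1) ^ h := by
  classical
  induction h with
  | zero =>
    refine ⟨{0}, ?_, by simp⟩
    rintro x ⟨s, hs, hc, rfl⟩
    have : s = 0 := Multiset.card_eq_zero.1 (by omega)
    simp [this]
  | succ h ih =>
    obtain ⟨G, hG, hGc⟩ := ih
    refine ⟨Finset.image₂ (· + ·) G (insert 0 U), ?_, ?_⟩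
    · rintro x ⟨s, hs, hc, rfl⟩
      rw [Finset.mem_image₂]
      rcases Multiset.empty_or_exists_mem s with h0 | ⟨a, ha⟩
      · refine ⟨0, hG 0 (zero_mem_Fs _ _), 0, Finset.mem_insert_self _ _, by simp [h0]⟩
      · obtain ⟨t, rfl⟩ := Multiset.exists_cons_of_mem ha
        refine ⟨t.sum, hG _ ⟨t, fun x hx => hs x (Multiset.mem_cons_of_mem hx), ?_, rfl⟩, a,
          Finset.mem_insert_of_mem (Finset.mem_coe.1 (hs a (Multiset.mem_cons_self _ _))), ?_⟩
        · rw [Multiset.card_cons] at hc; omega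
        · rw [Multiset.sum_cons, add_comm]
    · refine (Finset.card_image₂_le _ _ _).trans ?_
      rw [pow_succ]
      exact Nat.mul_le_mul hGc (Finset.card_insert_le _ _)

lemma missing_level {h : ℕ} (s : Multiset ℕ) (hs : Multiset.card s ≤ h) (I : ℕ → Finset ℕ) :
    ∃ i ≤ h, ∀ a ∈ s, a ∈ I i → a ∈ (Finset.range i).biUnion I := by
  classical
  by_contra hcon
  push Not at hcon
  choose! v hv using hcon
  have hinj : Set.InjOn v (Finset.range (h + 1) : Finset ℕ) := by
    have haux : ∀ i ≤ h, ∀ j ≤ h, i < j → v i ≠ v j := by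
      intro i hi j hj hij heq
      have h1 := hv i hi
      have h2 := hv j hj
      apply h2.2.2
      rw [Finset.mem_biUnion]
      exact ⟨i, Finset.mem_range.2 hij, heq ▸ h1.2.1⟩
    intro i hi j hj hij
    have hi' := Finset.mem_range.1 (Finset.mem_coe.1 hi)
    have hj' := Finset.mem_range.1 (Finset.mem_coe.1 hj)
    rcases lt_trichotomy i j with h' | h' | h'
    · exact absurd hij (haux i (by omega) j (by omega) h')
    · exact h'
    · exact absurd hij.symm (haux j (by omega) i (by omega) h')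
  have hle := Finset.card_le_card_of_injOn (s := Finset.range (h + 1)) (t := s.toFinset) v
    (fun i hi => by
      have hi' := Finset.mem_range.1 (Finset.mem_coe.1 hi)
      exact Finset.mem_coe.2 (Multiset.mem_toFinset.2 (hv i (by omega)).1)) hinj
  rw [Finset.card_range] at hle
  have := Multiset.toFinset_card_le s
  omega

theorem level0 {h n0 : ℕ} {A : Set ℕ} (hA : ∀ n, n0 ≤ n → n ∈ Fs h A) {n : ℕ}
    (hn : 2 * n0 ≤ n) (I : ℕ → Finset ℕ) :
    ∃ i ≤ h, ∀ G : Finset ℕ, (∀ x ≤ n, x ∈ Fs h (A \ (I i : Set ℕ)) → x ∈ G) →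
      n ≤ 2 * (h + 1) * (((Finset.range i).biUnion I).card + 1) ^ h * G.card := by
  classical
  by_contra hcon
  push Not at hcon
  choose! G hG using hcon
  have := fun i => Fs_finite_card h ((Finset.range i).biUnion I)
  choose F hF using this
  have hcover : Finset.Icc n0 n ⊆ (Finset.range (h + 1)).biUnion
      (fun i => Finset.image₂ (· + ·) (F i) (G i)) := by
    intro x hx
    rw [Finset.mem_Icc] at hx
    obtain ⟨s, hs, hc, rfl⟩ := hA x hx.1
    obtain ⟨i, hi, hmiss⟩ := missing_level s hc I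
    rw [Finset.mem_biUnion]
    refine ⟨i, Finset.mem_range.2 (by omega), ?_⟩
    rw [Finset.mem_image₂]
    set U := (Finset.range i).biUnion I with hU
    have hsplit := Multiset.filter_add_not (fun a => a ∈ U) s
    have hsum : (s.filter (fun a => a ∈ U)).sum + (s.filter (fun a => ¬ a ∈ U)).sum = s.sum := by
      rw [← Multiset.sum_add, hsplit]
    refine ⟨(s.filter (fun a => a ∈ U)).sum, (hF i).1 _ ?_, (s.filter (fun a => ¬ a ∈ U)).sum,
      (hG i hi).1 _ (by omega) ?_, hsum⟩
    · refine ⟨_, ?_, ?_, rfl⟩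
      · intro a ha
        exact (Multiset.mem_filter.1 ha).2
      · exact (Multiset.card_le_card (Multiset.filter_le _ _)).trans hc
    · refine ⟨_, ?_, ?_, rfl⟩
      · intro a ha
        have ha' := Multiset.mem_filter.1 ha
        exact ⟨hs a ha'.1, fun hI => ha'.2 (hmiss a ha'.1 hI)⟩
      · exact (Multiset.card_le_card (Multiset.filter_le _ _)).trans hc
  have h1 := Finset.card_le_card hcover
  rw [Nat.card_Icc] at h1
  have h2 : ((Finset.range (h + 1)).biUnion
      (fun i => Finset.image₂ (· + ·) (F i) (G i))).card ≤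
      ∑ i ∈ Finset.range (h + 1), (F i).card * (G i).card :=
    Finset.card_biUnion_le.trans (Finset.sum_le_sum (fun i _ => Finset.card_image₂_le _ _ _))
  have h3 : 2 * (h + 1) * ∑ i ∈ Finset.range (h + 1), (F i).card * (G i).card ≤
      ∑ i ∈ Finset.range (h + 1), n := by
    rw [Finset.mul_sum]
    apply Finset.sum_le_sum
    intro i hi
    have hi' := Finset.mem_range.1 hi
    have hG2 := (hG i (by omega)).2
    have hF2 := (hF i).2
    calc 2 * (h + 1) * ((F i).card * (G i).card)
        ≤ 2 * (h + 1) * ((((Finset.range i).biUnion I).card + 1) ^ h * (G i).card) :=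
          Nat.mul_le_mul_left _ (Nat.mul_le_mul_right _ hF2)
      _ = 2 * (h + 1) * (((Finset.range i).biUnion I).card + 1) ^ h * (G i).card := by ring
      _ ≤ n := hG2.le
  rw [Finset.sum_const, Finset.card_range, smul_eq_mul] at h3
  have h4 : (h + 1) * (2 * (n + 1 - n0)) ≤ (h + 1) * n := by
    calc (h + 1) * (2 * (n + 1 - n0)) = 2 * (h + 1) * (n + 1 - n0) := by ring
      _ ≤ 2 * (h + 1) * ∑ i ∈ Finset.range (h + 1), (F i).card * (G i).card :=
        Nat.mul_le_mul_left _ (h1.trans h2)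
      _ ≤ (h + 1) * n := h3
  have h5 := Nat.le_of_mul_le_mul_left h4 (Nat.succ_pos h)
  omega

/-- Level lemma: for every large `n` there is a density level `D` (from a finite list) such that
removing at most `ω D` elements from `A` leaves at least `n / D` sums in `[0,n]`. -/
theorem level {h n0 : ℕ} {A : Set ℕ} (hA : ∀ n, n0 ≤ n → n ∈ Fs h A) (ω : ℕ → ℕ) :
    ∃ L : Finset ℕ, (∀ D ∈ L, 1 ≤ D) ∧ ∀ n, 2 * n0 ≤ n → ∃ D ∈ L, ∀ I : Finset ℕ,
      I.card ≤ ω D → ∀ G : Finset ℕ, (∀ x ≤ n, x ∈ Fs h (A \ (I : Set ℕ)) → x ∈ G) →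
        n ≤ D * G.card := by
  classical
  let d : ℕ → ℕ := fun w => 2 * (h + 1) * (w + 1) ^ h
  let W : ℕ → ℕ := fun i => Nat.rec 0 (fun _ w => w + ω (d w)) i
  have hW0 : W 0 = 0 := rfl
  have hW1 : ∀ i, W (i + 1) = W i + ω (d (W i)) := fun i => rfl
  refine ⟨(Finset.range (h + 1)).image (fun i => d (W i)), ?_, ?_⟩
  · intro D hD
    obtain ⟨i, _, rfl⟩ := Finset.mem_image.1 hD
    have : 0 < (W i + 1) ^ h := by positivity
    show 1 ≤ 2 * (h + 1) * (W i + 1) ^ h
    nlinarith
  · intro n hn
    by_contra hcon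
    push Not at hcon
    have hcon' : ∀ i, ∃ I : Finset ℕ, i ≤ h → (I.card ≤ ω (d (W i)) ∧ ∃ G : Finset ℕ,
        (∀ x ≤ n, x ∈ Fs h (A \ (I : Set ℕ)) → x ∈ G) ∧ d (W i) * G.card < n) := by
      intro i
      by_cases hi : i ≤ h
      · obtain ⟨I, hI⟩ := hcon (d (W i))
          (Finset.mem_image.2 ⟨i, Finset.mem_range.2 (by omega), rfl⟩)
        exact ⟨I, fun _ => hI⟩
      · exact ⟨∅, fun h' => absurd h' hi⟩
    choose I hI using hcon'
    have hWle : ∀ i, i ≤ h → ((Finset.range i).biUnion I).card ≤ W i := by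
      intro i
      induction i with
      | zero => intro _; simp
      | succ i ih =>
        intro hi
        rw [hW1, Finset.range_add_one, Finset.biUnion_insert]
        have h1 := ih (by omega)
        have h2 := (hI i (by omega)).1
        have h3 := Finset.card_union_le (I i) ((Finset.range i).biUnion I)
        omega
    obtain ⟨i, hi, hlev⟩ := level0 hA hn I
    obtain ⟨G, hG, hGn⟩ := (hI i hi).2
    have h1 := hlev G hG
    have h2 : 2 * (h + 1) * (((Finset.range i).biUnion I).card + 1) ^ h * G.card ≤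
        d (W i) * G.card := by
      apply Nat.mul_le_mul_right
      apply Nat.mul_le_mul_left
      exact Nat.pow_le_pow_left (by have := hWle i hi; omega) _
    omega

lemma sum_mul_le (s : Multiset ℕ) (l z : ℕ) (hs : ∀ a ∈ s, l * a ≤ z) :
    l * s.sum ≤ Multiset.card s * z := by
  induction s using Multiset.induction_on with
  | empty => simp
  | cons a s ih =>
    have h1 := ih (fun b hb => hs b (Multiset.mem_cons_of_mem hb))
    have h2 := hs a (Multiset.mem_cons_self _ _)
    rw [Multiset.sum_cons, Multiset.card_cons]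
    nlinarith

open Classical in
/-- Lemma S: for `z` large compared with `n'`, the elements of `A` in `(n', z)` add up to
at least `z`. -/
theorem lemmaS {h n0 : ℕ} {A : Set ℕ} (hA : ∀ n, n0 ≤ n → n ∈ Fs h A) :
    ∃ M1, 1 ≤ M1 ∧ ∀ n' z, M1 * (n' + 1) ≤ z →
      z ≤ ∑ a ∈ (Finset.range z).filter (fun a => a ∈ A ∧ n' < a), a := by
  let lam : ℕ → ℕ := fun i => Nat.rec 1 (fun _ l => 8 * (h + 1) * ((h + 1) * (l + 1) ^ h)) i
  have hl0 : lam 0 = 1 := rfl
  have hl1 : ∀ i, lam (i + 1) = 8 * (h + 1) * ((h + 1) * (lam i + 1) ^ h) := fun i => rfl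
  have hlpos : ∀ i, 1 ≤ lam i := by
    intro i
    cases i with
    | zero => exact le_rfl
    | succ i =>
      rw [hl1]
      have : 0 < (lam i + 1) ^ h := by positivity
      have : 0 < 8 * (h + 1) * ((h + 1) * (lam i + 1) ^ h) := by positivity
      omega
  rcases Nat.eq_zero_or_pos h with hh0 | hhpos
  · -- impossible: everything would be zero
    exfalso
    subst hh0
    obtain ⟨s, _, hc, hsum⟩ := hA (n0 + 1) (by omega)
    have : s = 0 := Multiset.card_eq_zero.1 (by omega)
    rw [this] at hsum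
    simp at hsum
  have hlmono : Monotone lam := by
    apply monotone_nat_of_le_succ
    intro i
    rw [hl1]
    have h1 : lam i + 1 ≤ (lam i + 1) ^ h := Nat.le_self_pow (by omega) _
    have h2 : (lam i + 1) ^ h ≤ (h + 1) * (lam i + 1) ^ h := Nat.le_mul_of_pos_left _ (by omega)
    have h3 : (h + 1) * (lam i + 1) ^ h ≤ 8 * (h + 1) * ((h + 1) * (lam i + 1) ^ h) :=
      Nat.le_mul_of_pos_left _ (by omega)
    omega
  refine ⟨8 * lam (h + 1) + 2 * n0 + 8, by omega, ?_⟩
  intro n' z hz
  by_contra hcon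
  push Not at hcon
  have hz1 : 8 * lam (h + 1) + 2 * n0 + 8 ≤ z :=
    le_trans (Nat.le_mul_of_pos_right _ (by omega)) hz
  let I : ℕ → Finset ℕ := fun j => (Finset.range z).filter (fun a => a ∈ A ∧ z ≤ lam (j + 1) * a)
  have hIcard : ∀ j ≤ h, (I j).card < lam (j + 1) := by
    intro j hj
    have hlj : lam (j + 1) ≤ lam (h + 1) := hlmono (show j + 1 ≤ h + 1 by omega)
    have hsub : I j ⊆ (Finset.range z).filter (fun a => a ∈ A ∧ n' < a) := by
      intro a ha
      have ha' := Finset.mem_filter.1 ha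
      refine Finset.mem_filter.2 ⟨ha'.1, ha'.2.1, ?_⟩
      by_contra hle
      have h1 : lam (j + 1) * a ≤ lam (h + 1) * n' := Nat.mul_le_mul hlj (by omega)
      have h2 : lam (h + 1) * n' < (8 * lam (h + 1) + 2 * n0 + 8) * (n' + 1) := by
        nlinarith [Nat.zero_le (lam (h + 1)), Nat.zero_le n']
      have := ha'.2.2
      omega
    have h1 : (I j).card * z ≤ lam (j + 1) * ∑ a ∈ I j, a := by
      rw [Finset.mul_sum, ← smul_eq_mul, ← Finset.sum_const]
      exact Finset.sum_le_sum (fun a ha => (Finset.mem_filter.1 ha).2.2)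
    have h2 : ∑ a ∈ I j, a ≤ ∑ a ∈ (Finset.range z).filter (fun a => a ∈ A ∧ n' < a), a :=
      Finset.sum_le_sum_of_subset hsub
    have h3 : (I j).card * z < lam (j + 1) * z := by
      calc (I j).card * z ≤ lam (j + 1) * ∑ a ∈ I j, a := h1
        _ < lam (j + 1) * z := Nat.mul_lt_mul_of_pos_left (by omega) (hlpos (j + 1))
    exact lt_of_mul_lt_mul_right h3 (Nat.zero_le _)
  obtain ⟨i, hi, hlev⟩ := level0 hA (n := z - 1) (by omega) I
  have hU : ((Finset.range i).biUnion I).card ≤ lam i := by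
    rcases Nat.eq_zero_or_pos i with h0 | hpos
    · subst h0; simp
    · have hsub : (Finset.range i).biUnion I ⊆ I (i - 1) := by
        intro a ha
        obtain ⟨j, hj, haj⟩ := Finset.mem_biUnion.1 ha
        have hj' := Finset.mem_range.1 hj
        have ha' := Finset.mem_filter.1 haj
        refine Finset.mem_filter.2 ⟨ha'.1, ha'.2.1, ?_⟩
        have hm : lam (j + 1) ≤ lam (i - 1 + 1) := hlmono (show j + 1 ≤ i - 1 + 1 by omega)
        exact ha'.2.2.trans (Nat.mul_le_mul_right _ hm)
      have h1 := Finset.card_le_card hsub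
      have h2 := hIcard (i - 1) (by omega)
      have h3 : i - 1 + 1 = i := by omega
      rw [h3] at h2
      omega
  have h1 := hlev (Finset.range (h * z / lam (i + 1) + 1)) (by
    intro x hx hxF
    obtain ⟨s, hs, hc, hsum⟩ := hxF
    rw [Finset.mem_range, Nat.lt_succ_iff]
    refine (Nat.le_div_iff_mul_le (show 0 < lam (i + 1) from hlpos (i + 1))).2 ?_
    have h2 : lam (i + 1) * s.sum ≤ Multiset.card s * z := by
      apply sum_mul_le
      intro a ha
      have ha1 : a ≤ s.sum := Multiset.le_sum_of_mem ha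
      have ha2 := hs a ha
      by_contra hcon'
      apply ha2.2
      exact Finset.mem_coe.2 (Finset.mem_filter.2
        ⟨Finset.mem_range.2 (by omega), ha2.1, by omega⟩)
    rw [hsum] at h2
    calc x * lam (i + 1) = lam (i + 1) * x := by ring
      _ ≤ Multiset.card s * z := h2
      _ ≤ h * z := Nat.mul_le_mul_right _ hc)
  rw [Finset.card_range] at h1
  set P := (h + 1) * (lam i + 1) ^ h with hP
  set t := h * z / lam (i + 1) with ht
  have hlP : lam (i + 1) = 8 * (h + 1) * P := hl1 i
  have h2 : 2 * (h + 1) * (((Finset.range i).biUnion I).card + 1) ^ h * (t + 1) ≤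
      2 * P * (t + 1) := by
    apply Nat.mul_le_mul_right
    rw [hP, ← mul_assoc]
    apply Nat.mul_le_mul_left
    exact Nat.pow_le_pow_left (by omega) _
  have h3 : lam (i + 1) * t ≤ h * z := Nat.mul_div_le _ _
  have h4 : 8 * P * t ≤ z := by
    rw [hlP] at h3
    have h5 : (h + 1) * (8 * P * t) ≤ (h + 1) * z := by
      calc (h + 1) * (8 * P * t) = 8 * (h + 1) * P * t := by ring
        _ ≤ h * z := h3
        _ ≤ (h + 1) * z := Nat.mul_le_mul_right _ (by omega)
    exact Nat.le_of_mul_le_mul_left h5 (Nat.succ_pos h)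
  have h5 : 8 * P ≤ lam (h + 1) := by
    have : lam (i + 1) ≤ lam (h + 1) := hlmono (show i + 1 ≤ h + 1 by omega)
    have h6 : 8 * P ≤ lam (i + 1) := by
      rw [hlP]
      calc 8 * P = 8 * 1 * P := by ring
        _ ≤ 8 * (h + 1) * P := by
          apply Nat.mul_le_mul_right
          omega
    omega
  have h6 : 4 * (2 * P * (t + 1)) = 8 * P * t + 8 * P := by ring
  omega

end Pool.Agent.Helper34_EG
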