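import Pool.Agent.Helper34_EG.Basic

set_option autoImplicit false

namespace Pool.Agent.Helper34_EG

/-- `A` minus any finite set is a basis of some order. -/
def Hyp (A : Set ℕ) : Prop :=
  ∀ F : Finset ℕ, ∃ k n0 : ℕ, ∀ n, n0 ≤ n → n ∈ Fs k (A \ (F : Set ℕ))

lemma residue {A : Set ℕ} (hA : Hyp A) {q : ℕ} (hq : 0 < q) :
    ∃ t : ℕ, ∀ (F : Finset ℕ) (r : ℕ), ∃ R : Finset ℕ,
      (∀ a ∈ R, a ∈ A ∧ a ∉ F) ∧ R.card ≤ t ∧ (∑ a ∈ R, a) % q = r % q := by
  classical
  let Fc : ℕ → Finset ℕ := fun c =>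
    if hfin : {a | a ∈ A ∧ a % q = c}.Finite then hfin.toFinset else ∅
  set F0 := (Finset.range q).biUnion Fc with hF0
  have hinf : ∀ a ∈ A, a ∉ F0 → {b | b ∈ A ∧ b % q = a % q}.Infinite := by
    intro a ha haF hfin
    apply haF
    rw [hF0, Finset.mem_biUnion]
    refine ⟨a % q, Finset.mem_range.2 (Nat.mod_lt _ hq), ?_⟩
    simp only [Fc]
    rw [dif_pos hfin, Set.Finite.mem_toFinset]
    exact ⟨ha, rfl⟩
  obtain ⟨k, n0, hk⟩ := hA F0
  refine ⟨k, ?_⟩
  have main : ∀ (s : Multiset ℕ), (∀ a ∈ s, a ∈ A ∧ a ∉ F0) → ∀ F : Finset ℕ, ∃ R : Finset ℕ,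
      (∀ a ∈ R, a ∈ A ∧ a ∉ F) ∧ R.card ≤ Multiset.card s ∧ (∑ a ∈ R, a) % q = s.sum % q := by
    intro s
    induction s using Multiset.induction_on with
    | empty =>
      intro _ F
      exact ⟨∅, by simp, by simp, by simp⟩
    | cons a s ih =>
      intro hs F
      obtain ⟨R, hR, hRc, hRs⟩ := ih (fun b hb => hs b (Multiset.mem_cons_of_mem hb)) F
      have ha := hs a (Multiset.mem_cons_self _ _)
      obtain ⟨b, hb, hbn⟩ := (hinf a ha.1 ha.2).exists_notMem_finset (F ∪ R)
      rw [Finset.mem_union, not_or] at hbn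
      refine ⟨insert b R, ?_, ?_, ?_⟩
      · intro x hx
        rcases Finset.mem_insert.1 hx with rfl | hx
        · exact ⟨hb.1, hbn.1⟩
        · exact hR x hx
      · rw [Multiset.card_cons]
        exact (Finset.card_insert_le _ _).trans (by omega)
      · rw [Finset.sum_insert hbn.2, Multiset.sum_cons, Nat.add_mod, hb.2, hRs, ← Nat.add_mod]
  intro F r
  obtain ⟨s, hs, hc, hsum⟩ := hk (n0 * q + r % q) (by
    have := Nat.le_mul_of_pos_right n0 hq
    omega)
  obtain ⟨R, hR, hRc, hRs⟩ := main s (fun a ha => ⟨(hs a ha).1, fun h => (hs a ha).2 h⟩) F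
  refine ⟨R, hR, hRc.trans hc, ?_⟩
  rw [hRs, hsum]
  simp [Nat.add_mod]

/-- A finite reservoir of elements of `A` able to produce every residue class mod `q`, even after
the removal of at most `m` elements. -/
lemma reservoir {A : Set ℕ} (hA : Hyp A) {q : ℕ} (hq : 0 < q) :
    ∃ t : ℕ, ∀ m : ℕ, ∃ E : Finset ℕ, (∀ a ∈ E, a ∈ A) ∧ ∀ I : Finset ℕ, I.card ≤ m →
      ∀ r : ℕ, ∃ R : Finset ℕ, R ⊆ E ∧ Disjoint R I ∧ R.card ≤ t ∧
        (∑ a ∈ R, a) % q = r % q := by
  classical
  obtain ⟨t, ht⟩ := residue hA hq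
  refine ⟨t, ?_⟩
  intro m
  induction m with
  | zero =>
    choose R hR hRc hRs using ht ∅
    refine ⟨(Finset.range q).biUnion R, ?_, ?_⟩
    · intro a ha
      obtain ⟨r, _, har⟩ := Finset.mem_biUnion.1 ha
      exact (hR r a har).1
    · intro I hI r
      have hI0 : I = ∅ := Finset.card_eq_zero.1 (by omega)
      refine ⟨R (r % q), Finset.subset_biUnion_of_mem R
        (Finset.mem_range.2 (Nat.mod_lt _ hq)), by rw [hI0]; exact Finset.disjoint_empty_right _,
        hRc _, ?_⟩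
      rw [hRs, Nat.mod_mod]
  | succ m ih =>
    obtain ⟨E, hEA, hE⟩ := ih
    choose R hR hRc hRs using ht E
    refine ⟨E ∪ (Finset.range q).biUnion R, ?_, ?_⟩
    · intro a ha
      rcases Finset.mem_union.1 ha with ha | ha
      · exact hEA a ha
      · obtain ⟨r, _, har⟩ := Finset.mem_biUnion.1 ha
        exact (hR r a har).1
    · intro I hI r
      by_cases hIE : (I ∩ E).card ≤ m
      · obtain ⟨R', hR'E, hR'I, hR'c, hR's⟩ := hE (I ∩ E) hIE r
        refine ⟨R', hR'E.trans Finset.subset_union_left, ?_, hR'c, hR's⟩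
        rw [Finset.disjoint_left] at hR'I ⊢
        intro a ha haI
        exact hR'I ha (Finset.mem_inter.2 ⟨haI, hR'E ha⟩)
      · have hle := Finset.card_le_card (Finset.inter_subset_left (s₁ := I) (s₂ := E))
        have hIsub : I ⊆ E := by
          have h1 : (I ∩ E) = I := Finset.eq_of_subset_of_card_le Finset.inter_subset_left
            (by omega)
          rw [← h1]
          exact Finset.inter_subset_right
        refine ⟨R (r % q), ?_, ?_, hRc _, ?_⟩
        · exact (Finset.subset_biUnion_of_mem R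
            (Finset.mem_range.2 (Nat.mod_lt _ hq))).trans Finset.subset_union_right
        · rw [Finset.disjoint_left]
          intro a ha haI
          exact (hR _ a ha).2 (hIsub haI)
        · rw [hRs, Nat.mod_mod]

end Pool.Agent.Helper34_EG
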