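import Pool.Agent.Helper34_EG.Dense2
import Pool.Agent.Helper34_EG.Level
import Pool.Agent.Helper34_EG.Residue
import Pool.Agent.Helper34_EG.Color

set_option autoImplicit false

namespace Pool.Agent.Helper34_EG

/-- The level property at scale `n`, level `D`, robustness `ω`. -/
def Lev (A : Set ℕ) (h D ω n : ℕ) : Prop :=
  ∀ I : Finset ℕ, I.card ≤ ω → ∀ G : Finset ℕ, (∀ x ≤ n, x ∈ Fs h (A \ (I : Set ℕ)) → x ∈ G) →
    n ≤ D * G.card

lemma robust1 {A : Set ℕ} (hA : Hyp A) (h D : ℕ) (hD : 1 ≤ D) :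
    ∃ h2 C1 : ℕ, ∀ ω1 : ℕ, ∃ ω n1 : ℕ, ∀ n, n1 ≤ n → Lev A h D ω n →
      ∃ v, v ≤ C1 * n ∧ ∀ I : Finset ℕ, I.card ≤ ω1 → ∀ x, v ≤ x → x < v + n →
        x ∈ Fs h2 (A \ (I : Set ℕ)) := by
  classical
  obtain ⟨K1, q1, nC, hq1, hC⟩ := lemmaC D hD 3
  obtain ⟨t1, hres⟩ := reservoir hA hq1
  refine ⟨K1 * h + t1, K1 + 2, ?_⟩
  intro ω1
  obtain ⟨E1, hE1A, hE1⟩ := hres ((K1 + 3) * ω1)
  refine ⟨(K1 + 3) * ω1, nC + ∑ a ∈ E1, a + 1, ?_⟩
  intro n hn hlev
  have hn1 : 1 ≤ n := by omega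
  have hσ : ∑ a ∈ E1, a ≤ n := by omega
  have claimA : ∀ I : Finset ℕ, I.card ≤ (K1 + 3) * ω1 → ∃ i < K1 + 3, ∀ x, i * n ≤ x →
      x < (i + 1) * n → x ∈ Fs (K1 * h + t1) (A \ (I : Set ℕ)) := by
    intro I hI
    set S0 := (Finset.range (n + 1)).filter (fun x => x ∈ Fs h (A \ (I : Set ℕ))) with hS0
    have hdense : ∀ i : ℕ, Dense D n ((fun _ : ℕ => S0) i) := by
      intro i
      refine ⟨?_, ?_⟩
      · intro x hx
        have := Finset.mem_range.1 (Finset.mem_filter.1 hx).1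
        omega
      · apply hlev I hI S0
        intro x hx hxF
        exact Finset.mem_filter.2 ⟨Finset.mem_range.2 (by omega), hxF⟩
    obtain ⟨u, hu, hap⟩ := hC n (by omega) (fun _ => S0) hdense
    have hun : u / n ≤ K1 := by
      calc u / n ≤ K1 * n / n := Nat.div_le_div_right hu
        _ = K1 := Nat.mul_div_cancel _ hn1
    have h1 : u / n * n ≤ u := Nat.div_mul_le_self u n
    have h2 : u < (u / n + 1) * n := by
      have := Nat.lt_mul_div_succ u hn1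
      rw [mul_comm]; exact this
    refine ⟨u / n + 2, by omega, ?_⟩
    intro x hx1 hx2
    have h3 : (u / n + 2) * n = (u / n + 1) * n + n := by ring
    have h4 : (u / n + 2 + 1) * n = u / n * n + 3 * n := by ring
    have hxu : u + n ≤ x := by omega
    have hxu' : x - u ≤ 3 * n := by omega
    obtain ⟨R, hRE, hRI, hRc, hRs⟩ := hE1 I hI (x - u)
    have hRσ : ∑ a ∈ R, a ≤ ∑ a ∈ E1, a := Finset.sum_le_sum_of_subset hRE
    have hRle : ∑ a ∈ R, a ≤ x - u := by omega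
    obtain ⟨y, hy⟩ : q1 ∣ (x - u) - ∑ a ∈ R, a := (Nat.modEq_iff_dvd' hRle).1 hRs
    have hyle : y ≤ 3 * n := by
      have : y ≤ q1 * y := Nat.le_mul_of_pos_left _ hq1
      omega
    have hxeq : x = (u + q1 * y) + ∑ a ∈ R, a := by omega
    rw [hxeq]
    apply Fs_add
    · obtain ⟨f, hf, hfs⟩ := hap y hyle
      rw [← hfs, ← Finset.range_eq_Ico]
      apply Fs_sum
      intro i hi
      exact (Finset.mem_filter.1 (hf i (Finset.mem_Ico.2 ⟨Nat.zero_le _, hi⟩))).2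
    · refine ⟨R.val, ?_, hRc, ?_⟩
      · intro a ha
        exact ⟨hE1A a (hRE ha), fun haI =>
          (Finset.disjoint_left.1 hRI) ha (Finset.mem_coe.1 haI)⟩
      · rw [Finset.sum_val]; rfl
  by_contra hcon
  push Not at hcon
  have hcon' : ∀ i, ∃ I : Finset ℕ, i < K1 + 3 → (I.card ≤ ω1 ∧ ∃ x, i * n ≤ x ∧ x < i * n + n ∧
      x ∉ Fs (K1 * h + t1) (A \ (I : Set ℕ))) := by
    intro i
    by_cases hi : i < K1 + 3
    · obtain ⟨I, hI⟩ := hcon (i * n) (Nat.mul_le_mul_right _ (by omega))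
      exact ⟨I, fun _ => hI⟩
    · exact ⟨∅, fun h' => absurd h' hi⟩
  choose I hI using hcon'
  set U := (Finset.range (K1 + 3)).biUnion I with hU
  have hUc : U.card ≤ (K1 + 3) * ω1 := by
    have := Finset.card_biUnion_le_card_mul (Finset.range (K1 + 3)) I ω1
      (fun i hi => (hI i (Finset.mem_range.1 hi)).1)
    rwa [Finset.card_range] at this
  obtain ⟨i, hi, hcell⟩ := claimA U hUc
  obtain ⟨x, hx1, hx2, hx3⟩ := (hI i hi).2
  apply hx3
  have hx4 := hcell x hx1 (by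
    have : (i + 1) * n = i * n + n := by ring
    omega)
  refine Fs_mono le_rfl ?_ hx4
  intro a ha
  refine ⟨ha.1, fun haI => ha.2 ?_⟩
  exact Finset.mem_coe.2 (Finset.mem_biUnion.2
    ⟨i, Finset.mem_range.2 hi, Finset.mem_coe.1 haI⟩)

lemma reps {A : Set ℕ} {h2 x : ℕ} (E : Finset ℕ) (m : ℕ)
    (hx : ∀ I : Finset ℕ, I.card ≤ E.card + m * h2 → x ∈ Fs h2 (A \ (I : Set ℕ))) :
    ∃ R : ℕ → Multiset ℕ, (∀ j < m, (∀ a ∈ R j, a ∈ A ∧ a ∉ E) ∧ Multiset.card (R j) ≤ h2 ∧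
      (R j).sum = x) ∧
      (∀ j < m, ∀ l < m, j ≠ l → Disjoint (R j).toFinset (R l).toFinset) := by
  classical
  induction m with
  | zero => exact ⟨fun _ => 0, fun j hj => absurd hj (by omega), fun j hj => absurd hj (by omega)⟩
  | succ m ih =>
    obtain ⟨R, hR, hRd⟩ := ih (fun I hI => hx I (by
      have : (m + 1) * h2 = m * h2 + h2 := by ring
      omega))
    set U := E ∪ (Finset.range m).biUnion (fun j => (R j).toFinset) with hU
    have hUc : U.card ≤ E.card + (m + 1) * h2 := by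
      have h1 := Finset.card_union_le E ((Finset.range m).biUnion (fun j => (R j).toFinset))
      have h2' := Finset.card_biUnion_le_card_mul (Finset.range m) (fun j => (R j).toFinset) h2
        (fun j hj => (Multiset.toFinset_card_le _).trans (hR j (Finset.mem_range.1 hj)).2.1)
      rw [Finset.card_range] at h2'
      have : (m + 1) * h2 = m * h2 + h2 := by ring
      rw [hU]
      omega
    obtain ⟨s, hs, hsc, hss⟩ := hx U hUc
    have hnew : ∀ j < m, Disjoint (R j).toFinset s.toFinset := by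
      intro j hj
      rw [Finset.disjoint_left]
      intro a ha ha'
      apply (hs a (Multiset.mem_toFinset.1 ha')).2
      apply Finset.mem_coe.2
      apply Finset.mem_union_right
      exact Finset.mem_biUnion.2 ⟨j, Finset.mem_range.2 hj, ha⟩
    refine ⟨fun j => if j < m then R j else s, ?_, ?_⟩
    · intro j hj
      by_cases hjm : j < m
      · simp only [hjm, if_true]; exact hR j hjm
      · simp only [hjm, if_false]
        refine ⟨fun a ha => ⟨(hs a ha).1, fun haE => (hs a ha).2 ?_⟩, hsc, hss⟩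
        exact Finset.mem_coe.2 (Finset.mem_union_left _ haE)
    · intro j hj l hl hjl
      by_cases hjm : j < m
      · by_cases hlm : l < m
        · simp only [hjm, hlm, if_true]; exact hRd j hjm l hlm hjl
        · simp only [hjm, hlm, if_true, if_false]; exact hnew j hjm
      · by_cases hlm : l < m
        · simp only [hjm, hlm, if_true, if_false]; exact (hnew l hlm).symm
        · exfalso; omega

lemma robust2 (A : Set ℕ) (h2 k : ℕ) (hk : 1 ≤ k) : ∃ m : ℕ, ∀ (E : Finset ℕ) (v n : ℕ),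
    (∀ I : Finset ℕ, I.card ≤ E.card + m * h2 → ∀ x, v ≤ x → x < v + n →
      x ∈ Fs h2 (A \ (I : Set ℕ))) →
    ∃ c : ℕ → ℕ, ∀ i < k, ∃ Y : Finset ℕ, (∀ y ∈ Y, y ∈ Ds h2 {a | a ∈ A ∧ a ∉ E ∧ c a = i}) ∧
      (∀ y ∈ Y, y ≤ v + n) ∧ n ≤ 2 * (h2 + 1) ^ h2 * Y.card := by
  classical
  obtain ⟨m, hm⟩ := coloring k h2 hk
  refine ⟨m, ?_⟩
  intro E v n hrob
  have hreps : ∀ x, ∃ R : ℕ → Multiset ℕ, x ∈ Finset.Ico v (v + n) →
      (∀ j < m, (∀ a ∈ R j, a ∈ A ∧ a ∉ E) ∧ Multiset.card (R j) ≤ h2 ∧ (R j).sum = x) ∧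
      (∀ j < m, ∀ l < m, j ≠ l → Disjoint (R j).toFinset (R l).toFinset) := by
    intro x
    by_cases hx : x ∈ Finset.Ico v (v + n)
    · rw [Finset.mem_Ico] at hx
      obtain ⟨R, hR⟩ := reps E m (fun I hI => hrob I hI x hx.1 hx.2)
      exact ⟨R, fun _ => hR⟩
    · exact ⟨fun _ => 0, fun h' => absurd h' hx⟩
  choose R hR using hreps
  obtain ⟨c, hc⟩ := hm (v + n) (Finset.Ico v (v + n)) (fun x j => (R x j).toFinset)
    (by
      intro x hx j hj
      have h1 := (hR x hx).1 j hj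
      refine ⟨(Multiset.toFinset_card_le _).trans h1.2.1, ?_⟩
      intro a ha
      have h3 : a ≤ x := by
        rw [← h1.2.2]
        exact Multiset.le_sum_of_mem (Multiset.mem_toFinset.1 ha)
      have h4 := (Finset.mem_Ico.1 hx).2
      omega)
    (by
      intro x hx j hj l hl hjl
      exact (hR x hx).2 j hj l hl hjl)
  refine ⟨c, ?_⟩
  intro i hi
  obtain ⟨G, hGJ, hGc, hG⟩ := hc i hi
  obtain ⟨Y, hY1, hY2, hY3⟩ := lemmaA h2 {a | a ∈ A ∧ a ∉ E ∧ c a = i} G (by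
    intro x hx
    obtain ⟨j, hj, hcol⟩ := hG x hx
    have h1 := (hR x (hGJ hx)).1 j hj
    exact ⟨R x j, fun a ha => ⟨(h1.1 a ha).1, (h1.1 a ha).2,
      hcol a (Multiset.mem_toFinset.2 ha)⟩, h1.2.1, h1.2.2⟩)
  refine ⟨Y, hY1, ?_, ?_⟩
  · intro y hy
    obtain ⟨x, hx, hyx⟩ := hY2 y hy
    have h4 := (Finset.mem_Ico.1 (hGJ hx)).2
    omega
  · rw [Nat.card_Ico] at hGc
    have h1 : n = v + n - v := by omega
    calc n = v + n - v := h1
      _ ≤ 2 * G.card := hGc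
      _ ≤ 2 * ((h2 + 1) ^ h2 * Y.card) := Nat.mul_le_mul_left _ hY3
      _ = 2 * (h2 + 1) ^ h2 * Y.card := by ring

lemma step {A : Set ℕ} (hA : Hyp A) (h M D : ℕ) (hD : 1 ≤ D) :
    ∃ ω t C n1 : ℕ, ∀ n, n1 ≤ n → Lev A h D ω n → ∃ n' u, n ≤ n' ∧ n' ≤ C * n ∧ u ≤ C * n ∧
      ∀ x, u ≤ x → x ≤ u + M * n' → x ∈ Ds t {a | a ∈ A ∧ a ≤ n'} := by
  classical
  obtain ⟨h2, C1, hrob1⟩ := robust1 hA h D hD
  set D2 := (C1 + 1) * (2 * (h2 + 1) ^ h2) with hD2
  have hD2pos : 1 ≤ D2 := by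
    have : 0 < (C1 + 1) * (2 * (h2 + 1) ^ h2) := by positivity
    omega
  obtain ⟨K2, q2, nC2, hq2, hC2⟩ := lemmaC D2 hD2pos (M + 1)
  obtain ⟨m2, hm2⟩ := robust2 A h2 (K2 + 1) (by omega)
  obtain ⟨t2, hres⟩ := reservoir hA hq2
  obtain ⟨E2, hE2A, hE2⟩ := hres 0
  obtain ⟨ω, n1, hω⟩ := hrob1 (E2.card + m2 * h2)
  refine ⟨ω, K2 * h2 + t2, (K2 + 1) * (C1 + 1), n1 + nC2 + ∑ a ∈ E2, a + 1, ?_⟩
  intro n hn hlev
  obtain ⟨v, hv, hvrob⟩ := hω n (by omega) hlev
  obtain ⟨c, hc⟩ := hm2 E2 v n hvrob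
  choose! Y hY1 hY2 hY3 using hc
  set n' := (C1 + 1) * n with hn'
  have hnn' : n ≤ n' := Nat.le_mul_of_pos_left _ (by omega)
  let S : ℕ → Finset ℕ := fun i => if i < K2 + 1 then Y i else Y 0
  have hSdense : ∀ i, Dense D2 n' (S i) := by
    have haux : ∀ i < K2 + 1, Dense D2 n' (Y i) := by
      intro i hi
      refine ⟨?_, ?_⟩
      · intro x hx
        have h1 := hY2 i hi x hx
        have h3 : n' = C1 * n + n := by rw [hn']; ring
        omega
      · calc n' = (C1 + 1) * n := hn'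
          _ ≤ (C1 + 1) * (2 * (h2 + 1) ^ h2 * (Y i).card) := Nat.mul_le_mul_left _ (hY3 i hi)
          _ = D2 * (Y i).card := by rw [hD2]; ring
    intro i
    by_cases hi : i < K2 + 1
    · simp only [S, hi, if_true]; exact haux i hi
    · simp only [S, hi, if_false]; exact haux 0 (by omega)
  obtain ⟨u, hu, hap⟩ := hC2 n' (by omega) S hSdense
  refine ⟨n', u + n', hnn', ?_, ?_, ?_⟩
  · rw [hn', mul_assoc]
    exact Nat.le_mul_of_pos_left _ (by omega)
  · calc u + n' ≤ K2 * n' + n' := by omega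
      _ = (K2 + 1) * (C1 + 1) * n := by rw [hn']; ring
  · intro x hx1 hx2
    obtain ⟨R, hRE, _, hRc, hRs⟩ := hE2 ∅ (by simp) (x - u)
    have hRσ : ∑ a ∈ R, a ≤ ∑ a ∈ E2, a := Finset.sum_le_sum_of_subset hRE
    have hRle : ∑ a ∈ R, a ≤ x - u := by omega
    obtain ⟨y, hy⟩ : q2 ∣ (x - u) - ∑ a ∈ R, a := (Nat.modEq_iff_dvd' hRle).1 hRs
    have hyle : y ≤ (M + 1) * n' := by
      have h3 : y ≤ q2 * y := Nat.le_mul_of_pos_left _ hq2
      have h4 : (M + 1) * n' = M * n' + n' := by ring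
      omega
    have hxeq : x = (u + q2 * y) + ∑ a ∈ R, a := by omega
    rw [hxeq]
    obtain ⟨f, hf, hfs⟩ := hap y hyle
    rw [← hfs, ← Finset.range_eq_Ico]
    let B : ℕ → Set ℕ := fun i => {a | a ∈ A ∧ a ∉ E2 ∧ c a = i ∧ a ≤ n'}
    have hfB : ∀ i < K2, f i ∈ Ds h2 (B i) := by
      intro i hi
      have h1 := hf i (Finset.mem_Ico.2 ⟨Nat.zero_le _, hi⟩)
      have h3 : i < K2 + 1 := by omega
      simp only [S, h3, if_true] at h1
      have h4 := Ds_restrict (hY1 i h3 _ h1)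
      refine Ds_mono le_rfl ?_ h4
      rintro a ⟨⟨ha1, ha2, ha3⟩, ha4⟩
      have h5 := hY2 i h3 _ h1
      have h6 : n' = C1 * n + n := by rw [hn']; ring
      exact ⟨ha1, ha2, ha3, by omega⟩
    have hsum := Ds_sum K2 h2 B f (by
      intro i _ j _ hij
      rw [Set.disjoint_left]
      rintro a ⟨_, _, ha3, _⟩ ⟨_, _, ha3', _⟩
      exact hij (ha3.symm.trans ha3')) hfB
    have hR : ∑ a ∈ R, a ∈ Ds t2 (E2 : Set ℕ) :=
      ⟨R, fun a ha => Finset.mem_coe.2 (hRE ha), hRc, rfl⟩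
    refine Ds_add' ?_ ?_ ?_ hsum hR
    · rw [Set.disjoint_iUnion₂_left]
      intro i _
      rw [Set.disjoint_left]
      rintro a ⟨_, ha2, _, _⟩ haE
      exact ha2 (Finset.mem_coe.1 haE)
    · intro a ha
      simp only [Set.mem_iUnion] at ha
      obtain ⟨i, _, ha1, _, _, ha4⟩ := ha
      exact ⟨ha1, ha4⟩
    · intro a ha
      have ha' := Finset.mem_coe.1 ha
      refine ⟨hE2A a ha', ?_⟩
      have : a ≤ ∑ a ∈ E2, a :=
        Finset.single_le_sum (f := fun x => x) (fun _ _ => Nat.zero_le _) ha'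
      omega

lemma basis_of_hyp {A : Set ℕ} (hA : Hyp A) : ∃ h n0 : ℕ, ∀ n, n0 ≤ n → n ∈ Fs h A := by
  obtain ⟨k, n0, hk⟩ := hA ∅
  refine ⟨k, n0, fun n hn => ?_⟩
  have := hk n hn
  simpa using this

/-- (Q): at every large scale `n` the sums of boundedly many distinct elements of `A ∩ [0,n']`
contain an interval of length `M n'`, where `n ≤ n' ≤ C n`. -/
lemma intervals {A : Set ℕ} (hA : Hyp A) (M : ℕ) : ∃ t C n1 : ℕ, ∀ n, n1 ≤ n →
    ∃ n' u, n ≤ n' ∧ n' ≤ C * n ∧ u ≤ C * n ∧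
      ∀ x, u ≤ x → x ≤ u + M * n' → x ∈ Ds t {a | a ∈ A ∧ a ≤ n'} := by
  classical
  obtain ⟨h, n0, hbasis⟩ := basis_of_hyp hA
  have hstep : ∀ D, ∃ ω t C n1 : ℕ, 1 ≤ D → ∀ n, n1 ≤ n → Lev A h D ω n →
      ∃ n' u, n ≤ n' ∧ n' ≤ C * n ∧ u ≤ C * n ∧
      ∀ x, u ≤ x → x ≤ u + M * n' → x ∈ Ds t {a | a ∈ A ∧ a ≤ n'} := by
    intro D
    by_cases hD : 1 ≤ D
    · obtain ⟨ω, t, C, n1, hst⟩ := step hA h M D hD
      exact ⟨ω, t, C, n1, fun _ => hst⟩
    · exact ⟨0, 0, 0, 0, fun h' => absurd h' hD⟩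
  choose ω t C n1 hst using hstep
  obtain ⟨L, hL1, hL⟩ := level hbasis ω
  refine ⟨L.sup t, L.sup C, L.sup n1 + 2 * n0, ?_⟩
  intro n hn
  obtain ⟨D, hDL, hlev⟩ := hL n (by omega)
  have h1 : n1 D ≤ L.sup n1 := Finset.le_sup hDL
  obtain ⟨n', u, hn1, hn2, hu, hint⟩ := hst D (hL1 D hDL) n (by omega) hlev
  have hCle : C D ≤ L.sup C := Finset.le_sup hDL
  have htle : t D ≤ L.sup t := Finset.le_sup hDL
  exact ⟨n', u, hn1, hn2.trans (Nat.mul_le_mul_right _ hCle), hu.trans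
    (Nat.mul_le_mul_right _ hCle), fun x hx1 hx2 => Ds_mono htle le_rfl (hint x hx1 hx2)⟩

open Classical in
/-- Complete sequences: if every element `b > n'` of `A` exceeds the sum of the smaller ones (above
`n'`) by at most `g`, then subset sums hit every interval of length `g`. -/
lemma complete_seq {A : Set ℕ} {n' g : ℕ}
    (hgap : ∀ b ∈ A, n' < b → b ≤ g + ∑ a ∈ (Finset.range b).filter (fun a => a ∈ A ∧ n' < a), a)
    (z : ℕ) : ∀ y, y ≤ g + ∑ a ∈ (Finset.range z).filter (fun a => a ∈ A ∧ n' < a), a →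
      ∃ P : Finset ℕ, P ⊆ (Finset.range z).filter (fun a => a ∈ A ∧ n' < a) ∧
        ∑ a ∈ P, a ≤ y ∧ y ≤ ∑ a ∈ P, a + g := by
  induction z with
  | zero =>
    intro y hy
    refine ⟨∅, by simp, by simp, ?_⟩
    simpa using hy
  | succ z ih =>
    intro y hy
    by_cases hz : z ∈ A ∧ n' < z
    · have hfil : (Finset.range (z + 1)).filter (fun a => a ∈ A ∧ n' < a) =
          insert z ((Finset.range z).filter (fun a => a ∈ A ∧ n' < a)) := by
        rw [Finset.range_add_one, Finset.filter_insert, if_pos hz]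
      have hznot : z ∉ (Finset.range z).filter (fun a => a ∈ A ∧ n' < a) := by simp
      rw [hfil, Finset.sum_insert hznot] at hy
      rw [hfil]
      by_cases hy2 : y ≤ g + ∑ a ∈ (Finset.range z).filter (fun a => a ∈ A ∧ n' < a), a
      · obtain ⟨P, hP1, hP2, hP3⟩ := ih y hy2
        exact ⟨P, hP1.trans (Finset.subset_insert _ _), hP2, hP3⟩
      · have hgz := hgap z hz.1 hz.2
        obtain ⟨P, hP1, hP2, hP3⟩ := ih (y - z) (by omega)
        have hzP : z ∉ P := fun h' => hznot (hP1 h')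
        refine ⟨insert z P, Finset.insert_subset_insert _ hP1, ?_, ?_⟩
        · rw [Finset.sum_insert hzP]; omega
        · rw [Finset.sum_insert hzP]; omega
    · have hfil : (Finset.range (z + 1)).filter (fun a => a ∈ A ∧ n' < a) =
          (Finset.range z).filter (fun a => a ∈ A ∧ n' < a) := by
        rw [Finset.range_add_one, Finset.filter_insert, if_neg hz]
      rw [hfil] at hy ⊢
      exact ih y hy

/-- Main theorem: a basis stable under finite removal has a restricted order. -/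
theorem main {A : Set ℕ} (hA : Hyp A) : ∃ t N0 : ℕ, ∀ N, N0 ≤ N → N ∈ Ds t A := by
  classical
  obtain ⟨h, n0, hbasis⟩ := basis_of_hyp hA
  obtain ⟨M1, hM1, hS⟩ := lemmaS hbasis
  obtain ⟨t, C, n1, hint⟩ := intervals hA (2 * M1)
  set Λ := C + M1 * (C + 1) + 1 with hΛ
  refine ⟨t + 2 * Λ, Λ * (n1 + 1), ?_⟩
  intro N hN
  have hΛpos : 0 < Λ := by omega
  set n := N / Λ with hn
  have hn1 : n1 + 1 ≤ n := (Nat.le_div_iff_mul_le hΛpos).2 (by rw [mul_comm]; exact hN)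
  have hnN : n * Λ ≤ N := Nat.div_mul_le_self N Λ
  have hNn : N < (n + 1) * Λ := by
    have := Nat.lt_mul_div_succ N hΛpos
    rw [mul_comm]; exact this
  obtain ⟨n', u, hnn', hn'C, huC, hI⟩ := hint n (by omega)
  have hCN : C * n ≤ N := by
    calc C * n ≤ Λ * n := Nat.mul_le_mul_right _ (by omega)
      _ = n * Λ := by ring
      _ ≤ N := hnN
  have hzN : M1 * (n' + 1) ≤ N := by
    calc M1 * (n' + 1) ≤ M1 * (C * n + n) := Nat.mul_le_mul_left _ (by omega)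
      _ = M1 * (C + 1) * n := by ring
      _ ≤ Λ * n := Nat.mul_le_mul_right _ (by omega)
      _ = n * Λ := by ring
      _ ≤ N := hnN
  set g := M1 * (n' + 1) with hg
  have hgM : g ≤ 2 * M1 * n' := by
    rw [hg]
    calc M1 * (n' + 1) ≤ M1 * (2 * n') := Nat.mul_le_mul_left _ (by omega)
      _ = 2 * M1 * n' := by ring
  have hgap : ∀ b ∈ A, n' < b →
      b ≤ g + ∑ a ∈ (Finset.range b).filter (fun a => a ∈ A ∧ n' < a), a := by
    intro b _ _
    by_cases hb : g ≤ b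
    · have := hS n' b hb
      omega
    · omega
  have hsumN := hS n' (N + 1) (by omega)
  obtain ⟨P, hPsub, hP1, hP2⟩ := complete_seq hgap (N + 1) (N - u) (by omega)
  have hx := hI (N - ∑ a ∈ P, a) (by omega) (by omega)
  have hNeq : N = ∑ a ∈ P, a + (N - ∑ a ∈ P, a) := by omega
  have hPn : ∀ a ∈ P, n' < a := fun a ha => (Finset.mem_filter.1 (hPsub ha)).2.2
  have hPA : ∀ a ∈ P, a ∈ A := fun a ha => (Finset.mem_filter.1 (hPsub ha)).2.1
  have hPc : P.card ≤ 2 * Λ := by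
    have h1 : P.card * n ≤ ∑ a ∈ P, a := by
      rw [← smul_eq_mul, ← Finset.sum_const]
      apply Finset.sum_le_sum
      intro a ha
      have := hPn a ha
      omega
    have h2 : P.card * n ≤ 2 * Λ * n := by
      calc P.card * n ≤ N := by omega
        _ ≤ (n + 1) * Λ := hNn.le
        _ ≤ (2 * n) * Λ := Nat.mul_le_mul_right _ (by omega)
        _ = 2 * Λ * n := by ring
    exact Nat.le_of_mul_le_mul_right h2 (by omega)
  rw [hNeq]
  have hPD : ∑ a ∈ P, a ∈ Ds (2 * Λ) {a | a ∈ A ∧ n' < a} :=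
    ⟨P, fun a ha => ⟨hPA a ha, hPn a ha⟩, hPc, rfl⟩
  have := Ds_add' (C := A) (h := 2 * Λ) (k := t) ?_ ?_ ?_ hPD hx
  · rw [add_comm t]
    exact this
  · rw [Set.disjoint_left]
    rintro a ⟨_, ha1⟩ ⟨_, ha2⟩
    omega
  · rintro a ⟨ha, _⟩; exact ha
  · rintro a ⟨ha, _⟩; exact ha

end Pool.Agent.Helper34_EG
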